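import Pool.Agent.Lib.MP_465591_an.Spec

/-!
# MP_465591_an: maps commuting with the circle group are linear on the first axis
-/

set_option autoImplicit false

open Metric Set

namespace Pool.Agent.Lib.MP_465591_an

namespace AxAux

theorem rot_smul (k : ℕ) (u x : ℂ) : rot k u (x • e1 k) = (u * x) • e1 k := by
  ext i
  by_cases h : i = 0
  · subst h
    simp [rot, e1]
  · have h1 : (x • e1 k) i = 0 := by simp [e1, h]
    have h2 : ((u * x) • e1 k) i = 0 := by simp [e1, h]
    rw [h2]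
    change (if i = 0 then u * (x • e1 k) i else
      if i = 1 then u⁻¹ * (x • e1 k) i else (x • e1 k) i) = 0
    rw [h1]
    simp

theorem norm_smul_e1 (k : ℕ) (x : ℂ) : ‖x • e1 k‖ = ‖x‖ := by
  rw [norm_smul, e1, PiLp.norm_single, norm_one, mul_one]

variable {k : ℕ} {f : Cn (k + 2) → Cn (k + 2)} {x : ℂ}

theorem mem_ball (hx : ‖x‖ < 1) {w : ℂ} (hw : ‖w‖ ≤ 1) : (w * x) • e1 k ∈ ball (0 : Cn (k + 2)) 1 := by
  rw [mem_ball_zero_iff, norm_smul_e1, norm_mul]
  calc ‖w‖ * ‖x‖ ≤ 1 * ‖x‖ := mul_le_mul_of_nonneg_right hw (norm_nonneg _)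
    _ < 1 := by rwa [one_mul]

theorem diff_line (hx : ‖x‖ < 1) (hf : DifferentiableOn ℂ f (ball 0 1)) (i : Fin (k + 2)) {w : ℂ}
    (hw : ‖w‖ ≤ 1) : DifferentiableAt ℂ (fun w : ℂ => f ((w * x) • e1 k) i) w := by
  have h1 : DifferentiableAt ℂ f ((w * x) • e1 k) :=
    hf.differentiableAt (isOpen_ball.mem_nhds (mem_ball hx hw))
  have h2 : DifferentiableAt ℂ (fun w : ℂ => (w * x) • e1 k) w :=
    (differentiableAt_id.mul_const x).smul_const (e1 k)
  have h3 : DifferentiableAt ℂ (fun w : ℂ => f ((w * x) • e1 k)) w := h1.comp w h2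
  exact ((EuclideanSpace.proj (𝕜 := ℂ) i).differentiableAt.comp w h3 :)

theorem dcc (hx : ‖x‖ < 1) (hf : DifferentiableOn ℂ f (ball 0 1)) (i : Fin (k + 2)) :
    DiffContOnCl ℂ (fun w : ℂ => f ((w * x) • e1 k) i) (ball 0 1) := by
  refine DifferentiableOn.diffContOnCl ?_
  rw [closure_ball _ one_ne_zero]
  intro w hw
  exact (diff_line hx hf i (by simpa using hw)).differentiableWithinAt

theorem ext_circle {φ ψ : ℂ → ℂ} (hφ : DiffContOnCl ℂ φ (ball 0 1))
    (hψ : DiffContOnCl ℂ ψ (ball 0 1)) (h : ∀ w, ‖w‖ = 1 → φ w = ψ w) {w : ℂ} (hw : ‖w‖ ≤ 1) :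
    φ w = ψ w := by
  have h1 := Complex.eqOn_closure_of_eqOn_frontier (isBounded_ball (x := (0 : ℂ)) (r := 1)) hφ hψ ?_
  · rw [closure_ball _ one_ne_zero] at h1
    exact h1 (by simpa using hw)
  · rw [frontier_ball _ one_ne_zero]
    intro w hw
    exact h w (by simpa using hw)

end AxAux

open AxAux in
/-- Maps commuting with the circle group are linear on the first axis. -/
theorem t_Ax : S_Ax := by
  intro k f c hf h0 hd hE x hx
  have key : ∀ w : ℂ, ‖w‖ = 1 → f ((w * x) • e1 k) = rot k w (f (x • e1 k)) := by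
    intro w hw
    rw [← rot_smul]
    refine hE w hw _ ?_
    rw [mem_ball_zero_iff, norm_smul_e1]
    exact hx
  have hc := fun i => dcc (k := k) hx hf i
  have hone : ((1 : ℂ) * x) • e1 k = x • e1 k := by rw [one_mul]
  have hid : DiffContOnCl ℂ (fun w : ℂ => w) (ball 0 1) := differentiable_id.diffContOnCl
  ext i
  by_cases hi0 : i = 0
  · subst hi0
    have h1 : ∀ w : ℂ, ‖w‖ ≤ 1 → f ((w * x) • e1 k) 0 = w * f (x • e1 k) 0 := by
      intro w hw
      refine ext_circle (hc 0) (ψ := fun w => w * f (x • e1 k) 0) ?_ ?_ hw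
      · exact (differentiable_id.mul_const _).diffContOnCl
      · intro v hv
        change f ((v * x) • e1 k) 0 = _
        rw [key v hv]
        simp [rot]
    have h2 : HasDerivAt (fun w : ℂ => f ((w * x) • e1 k) 0) (c * x) 0 := by
      have g0 : ((0 : ℂ) * x) • e1 k = 0 := by rw [zero_mul, zero_smul]
      have g1 : HasFDerivAt f (c • ContinuousLinearMap.id ℂ (Cn (k + 2))) (((0 : ℂ) * x) • e1 k) := by
        rw [g0, ← hd]
        exact (hf.differentiableAt (isOpen_ball.mem_nhds (mem_ball_self one_pos))).hasFDerivAt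
      have g2 : HasDerivAt (fun w : ℂ => (w * x) • e1 k) (((1 : ℂ) * x) • e1 k) 0 :=
        ((hasDerivAt_id (0 : ℂ)).mul_const x).smul_const (e1 k)
      have g3 : HasDerivAt (fun w : ℂ => f ((w * x) • e1 k))
          ((c • ContinuousLinearMap.id ℂ (Cn (k + 2))) (((1 : ℂ) * x) • e1 k)) 0 :=
        g1.comp_hasDerivAt (0 : ℂ) g2
      have g4 := ((EuclideanSpace.proj (𝕜 := ℂ) (0 : Fin (k + 2))).hasFDerivAt.comp_hasDerivAt
        (0 : ℂ) g3)
      have g5 : (EuclideanSpace.proj (𝕜 := ℂ) (0 : Fin (k + 2)))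
          ((c • ContinuousLinearMap.id ℂ (Cn (k + 2))) (((1 : ℂ) * x) • e1 k)) = c * x := by
        simp [e1, mul_comm]
      rw [g5] at g4
      exact g4
    have h3 : HasDerivAt (fun w : ℂ => f ((w * x) • e1 k) 0) (f (x • e1 k) 0) 0 := by
      have g1 : HasDerivAt (fun w : ℂ => w * f (x • e1 k) 0) (1 * f (x • e1 k) 0) 0 :=
        (hasDerivAt_id (0 : ℂ)).mul_const _
      rw [one_mul] at g1
      refine g1.congr_of_eventuallyEq ?_
      filter_upwards [ball_mem_nhds (0 : ℂ) one_pos] with w hw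
      exact h1 w (by simpa using (mem_ball_zero_iff.1 hw).le)
    have h4 : f (x • e1 k) 0 = c * x := h3.unique h2
    rw [h4]
    simp [e1]
  · have hr : ((c * x) • e1 k) i = 0 := by simp [e1, hi0]
    rw [hr]
    by_cases hi1 : i = 1
    · subst hi1
      have h1 : ∀ w : ℂ, ‖w‖ ≤ 1 → w * f ((w * x) • e1 k) 1 = f (x • e1 k) 1 := by
        intro w hw
        refine ext_circle (φ := fun w => w * f ((w * x) • e1 k) 1)
          (ψ := fun _ => f (x • e1 k) 1) ?_ diffContOnCl_const ?_ hw
        · exact hid.smul (hc 1)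
        · intro v hv
          have hv0 : v ≠ 0 := by
            intro h
            rw [h, norm_zero] at hv
            exact zero_ne_one hv
          change v * f ((v * x) • e1 k) 1 = _
          rw [key v hv]
          simp [rot, hv0]
      have h2 := h1 0 (by simp)
      rw [zero_mul] at h2
      exact h2.symm
    · have h1 : ∀ w : ℂ, ‖w‖ ≤ 1 → f ((w * x) • e1 k) i = f (x • e1 k) i := by
        intro w hw
        refine ext_circle (hc i) (ψ := fun _ => f (x • e1 k) i) diffContOnCl_const ?_ hw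
        intro v hv
        change f ((v * x) • e1 k) i = _
        rw [key v hv]
        simp [rot, hi0, hi1]
      have h2 := h1 0 (by simp)
      rw [zero_mul, zero_smul, h0] at h2
      rw [← h2]
      rfl

end Pool.Agent.Lib.MP_465591_an
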