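import Pool.Agent.Lib.MP_465591_an.Spec

/-!
# MP_465591_an: the circle and the hole (`t_Circ`)
-/

set_option autoImplicit false

open Metric Set Filter Topology

namespace Pool.Agent.Lib.MP_465591_an

namespace CircAux

theorem norm_sq_ge (k : ℕ) (z : Cn (k + 2)) : ‖z 0‖ ^ 2 + ‖z 1‖ ^ 2 ≤ ‖z‖ ^ 2 := by
  rw [EuclideanSpace.norm_sq_eq, Fin.sum_univ_succ, Fin.sum_univ_succ]
  have h : 0 ≤ ∑ i : Fin k, ‖z i.succ.succ‖ ^ 2 := Finset.sum_nonneg fun i _ => by positivity
  have h1 : z (Fin.succ 0) = z 1 := rfl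
  rw [h1]
  linarith

theorem exp_AA (r : ℝ) (hr : 1 ≤ r) : Complex.exp (AA r) = 4 * (r : ℂ) ^ 2 := by
  unfold AA
  rw [← Complex.ofReal_exp, Real.exp_log (by positivity)]
  push_cast
  ring

theorem FF_zero (k : ℕ) (A : ℂ) (z : Cn (k + 2)) :
    FF k A z 0 = z 0 * av A (4 * (z 0 * z 1)) := by
  unfold FF
  simp

theorem FF_one (k : ℕ) (A : ℂ) (z : Cn (k + 2)) :
    FF k A z 1 = z 1 * bv A (4 * (z 0 * z 1)) := by
  unfold FF
  simp

theorem FF_other (k : ℕ) (A : ℂ) (z : Cn (k + 2)) (i : Fin (k + 2)) (h0 : i ≠ 0) (h1 : i ≠ 1) :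
    FF k A z i = z i := by
  unfold FF
  simp [h0, h1]

/-- the point over `x` -/
noncomputable def pt (k : ℕ) (u : ℂ) : Cn (k + 2) :=
  WithLp.toLp 2 (fun i => if i = 0 then u / 2 else if i = 1 then u⁻¹ / 2 else 0)

theorem pt_zero (k : ℕ) (u : ℂ) : pt k u 0 = u / 2 := by simp [pt]

theorem pt_one (k : ℕ) (u : ℂ) : pt k u 1 = u⁻¹ / 2 := by simp [pt]

theorem pt_other (k : ℕ) (u : ℂ) (i : Fin (k + 2)) (h0 : i ≠ 0) (h1 : i ≠ 1) : pt k u i = 0 := by
  simp [pt, h0, h1]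

theorem norm_pt (k : ℕ) (u : ℂ) (hu : ‖u‖ = 1) : ‖pt k u‖ ^ 2 = 1 / 2 := by
  rw [EuclideanSpace.norm_sq_eq, Fin.sum_univ_succ, Fin.sum_univ_succ]
  have h : ∑ i : Fin k, ‖pt k u i.succ.succ‖ ^ 2 = 0 := by
    refine Finset.sum_eq_zero fun i _ => ?_
    rw [pt_other k u _ (Fin.succ_ne_zero _)]
    · simp
    · intro h
      have := congrArg Fin.val h
      simp at this
  have h1 : pt k u (Fin.succ 0) = pt k u 1 := rfl
  rw [h, h1, pt_zero, pt_one, norm_div, norm_div, norm_inv, hu]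
  norm_num

theorem e1_zero (k : ℕ) : e1 k 0 = 1 := by simp [e1]

theorem e1_other (k : ℕ) (i : Fin (k + 2)) (h0 : i ≠ 0) : e1 k i = 0 := by
  simp [e1, h0]

end CircAux

open CircAux in
/-- The circle and the hole. -/
theorem t_Circ (h1 : S_Gam) : S_Circ := by
  intro k r hr
  obtain ⟨-, -, hA0, -, hA1, hB1, -, hB, -, -⟩ := h1 (AA r)
  have hr0 : (0 : ℝ) < r := by linarith
  have hrC : (r : ℂ) ≠ 0 := by exact_mod_cast hr0.ne'
  refine ⟨fun x hx => ?_, fun z hz hF => ?_⟩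
  · set u : ℂ := x / (2 * (r : ℂ) ^ 2) with hu
    have hun : ‖u‖ = 1 := by
      rw [hu, norm_div, hx, norm_mul, norm_pow, Complex.norm_real, Real.norm_eq_abs,
        abs_of_pos hr0]
      simp only [Complex.norm_ofNat]
      exact div_self (by positivity)
    have hu0 : u ≠ 0 := by
      intro h
      rw [h, norm_zero] at hun
      exact zero_ne_one hun
    have hxu : x = u * (2 * (r : ℂ) ^ 2) := by
      rw [hu]
      field_simp
    have hm : 4 * (pt k u 0 * pt k u 1) = 1 := by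
      rw [pt_zero, pt_one]
      field_simp
      norm_num
    refine ⟨pt k u, ?_, ?_⟩
    · rw [← norm_pt k u hun, Real.sqrt_sq (norm_nonneg _)]
    · ext i
      by_cases h0 : i = 0
      · subst h0
        rw [FF_zero, hm, hA1, exp_AA r hr, pt_zero, PiLp.smul_apply, e1_zero, smul_eq_mul, hxu]
        ring
      · by_cases hi : i = 1
        · subst hi
          rw [FF_one, hm, hB1, PiLp.smul_apply, e1_other k 1 h0]
          simp
        · rw [FF_other k _ _ i h0 hi, pt_other k u i h0 hi, PiLp.smul_apply, e1_other k i h0]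
          simp
  · rw [mem_ball_zero_iff] at hz
    have hsq := norm_sq_ge k z
    have hz2 : ‖z‖ ^ 2 < 1 := by
      have := norm_nonneg z
      nlinarith
    have e0 : z 0 * av (AA r) (4 * (z 0 * z 1)) = 1 := by
      rw [← FF_zero, hF, e1_zero]
    have e2 : z 1 * bv (AA r) (4 * (z 0 * z 1)) = 0 := by
      rw [← FF_one, hF, e1_other k 1 (by simp)]
    rcases mul_eq_zero.1 e2 with h | h
    · rw [h, mul_zero, mul_zero, hA0, mul_one] at e0
      rw [e0, h, norm_one, norm_zero] at hsq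
      linarith
    · obtain ⟨j, hj, hm⟩ := hB _ h
      have hn : ‖(4 : ℂ) * (z 0 * z 1)‖ = 4 * (‖z 0‖ * ‖z 1‖) := by
        rw [norm_mul, norm_mul, Complex.norm_ofNat]
      have hlt : (j : ℝ) < 2 := by
        have e3 : ‖((j : ℕ) : ℂ)‖ = (j : ℝ) := Complex.norm_natCast j
        rw [← e3, ← hm, hn]
        nlinarith [sq_nonneg (‖z 0‖ - ‖z 1‖)]
      have hj1 : j = 1 := by
        have : j < 2 := by exact_mod_cast hlt
        omega
      rw [hj1, Nat.cast_one] at hm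
      rw [hm, hA1, exp_AA r hr] at e0
      -- `z 1 = r²`
      have hz1 : z 1 = (r : ℂ) ^ 2 := by
        have e4 : z 1 * (z 0 * (4 * (r : ℂ) ^ 2)) = (r : ℂ) ^ 2 * (4 * (z 0 * z 1)) := by ring
        rw [e0, hm, mul_one, mul_one] at e4
        exact e4
      have hz1n : 1 ≤ ‖z 1‖ ^ 2 := by
        rw [hz1, norm_pow, Complex.norm_real, Real.norm_eq_abs, abs_of_pos hr0]
        have : 1 ≤ r ^ 2 := one_le_pow₀ hr
        nlinarith
      have := sq_nonneg ‖z 0‖
      linarith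

end Pool.Agent.Lib.MP_465591_an
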