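import Pool.Agent.Lib.MP_465591_an.Spec

/-!
# MP_465591_an: colliding fibres
-/

set_option autoImplicit false

namespace Pool.Agent.Lib.MP_465591_an

/-- **Col.** -/
theorem t_Col (h1 : S_Gam) : S_Col := by
  intro A x y x' y' j hj hm hx hy
  obtain ⟨-, -, -, -, -, -, haz, hbz, hR1, hR2⟩ := h1 A
  obtain ⟨l, rfl⟩ : ∃ l, j = l + 1 := ⟨j - 1, by omega⟩
  have hR1 := hR1 (4 * (x * y)) (l + 1)
  have hR2 := hR2 (4 * (x * y)) (l + 1)
  rw [← hm] at hR1 hR2
  rw [Nat.add_sub_cancel]
  rw [Finset.prod_range_succ] at hR1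
  rw [Finset.prod_range_succ'] at hR2
  have hP : ∏ i ∈ Finset.range l, (4 * (x * y) + ((i + 1 : ℕ) : ℂ)) =
      ∏ i ∈ Finset.range l, (4 * (x * y) + 1 + (i : ℂ)) := by
    refine Finset.prod_congr rfl fun i _ => ?_
    push_cast
    ring
  rw [hP] at hR2
  set P : ℂ := ∏ i ∈ Finset.range l, (4 * (x * y) + 1 + (i : ℂ)) with hPdef
  set e : ℂ := Complex.exp (A * ((l + 1 : ℕ) : ℂ)) with he
  have hml : (4 * (x * y) + 1 + (l : ℂ)) = 4 * (x' * y') := by
    rw [hm]; push_cast; ring
  rw [hml] at hR1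
  -- first case
  have hA : av A (4 * (x' * y')) ≠ 0 → x' ≠ 0 → e = 4 * (x * y') * P := by
    intro h2 h3
    have h4 : x' * av A (4 * (x' * y')) * (e - 4 * (x * y') * P) = 0 := by
      linear_combination (-e) * hx + x * hR1
    rcases mul_eq_zero.1 h4 with h5 | h5
    · exact absurd h5 (mul_ne_zero h3 h2)
    · exact sub_eq_zero.1 h5
  have hB : bv A (4 * (x * y)) ≠ 0 → y ≠ 0 → e = 4 * (x * y') * P := by
    intro h2 h3
    have h4 : y * bv A (4 * (x * y)) * (e - 4 * (x * y') * P) = 0 := by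
      simp only [Nat.cast_zero, add_zero] at hR2
      linear_combination e * hy + y' * hR2
    rcases mul_eq_zero.1 h4 with h5 | h5
    · exact absurd h5 (mul_ne_zero h3 h2)
    · exact sub_eq_zero.1 h5
  -- the second case applies if `m` is a negative integer
  have hC : ∀ k : ℕ, 4 * (x * y) = -((k : ℂ) + 1) → e = 4 * (x * y') * P := by
    intro k hk
    have hne : -((k : ℂ) + 1) ≠ 0 := by
      rw [neg_ne_zero]
      exact_mod_cast Nat.succ_ne_zero k
    apply hB
    · intro h2
      obtain ⟨i, hi, hi2⟩ := hbz _ h2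
      rw [hk] at hi2
      have h3 : ((k + 1 + i : ℕ) : ℂ) = 0 := by
        push_cast
        linear_combination (-1 : ℂ) * hi2
      have h4 : k + 1 + i = 0 := by exact_mod_cast h3
      omega
    · rintro rfl
      rw [mul_zero, mul_zero] at hk
      exact hne hk.symm
  by_cases h2 : av A (4 * (x' * y')) = 0
  · obtain ⟨i, hi, hi2⟩ := haz _ h2
    apply hC (i + l)
    rw [hm] at hi2
    push_cast at hi2 ⊢
    linear_combination hi2
  · by_cases h3 : x' = 0
    · apply hC l
      rw [h3, zero_mul, mul_zero] at hm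
      push_cast at hm
      linear_combination (-1 : ℂ) * hm
    · exact hA h2 h3

end Pool.Agent.Lib.MP_465591_an
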