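import Mathlib

/-!
# MP_465591_an: univalent maps of the ball without symmetric Loewner chains, definitions
-/

set_option autoImplicit false

open Metric Set

namespace Pool.Agent.Lib.MP_465591_an

/-- `ℂⁿ` with the Euclidean norm -/
abbrev Cn (n : ℕ) : Type := EuclideanSpace ℂ (Fin n)

/-- The set `S(r 𝔹ⁿ)`: injective holomorphic maps `F` of the ball of radius `r` into `ℂⁿ` with
`F 0 = 0`, `DF(0) = I`. -/
structure IsS (n : ℕ) (r : ℝ) (F : Cn n → Cn n) : Prop where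
  diff : DifferentiableOn ℂ F (ball 0 r)
  inj : InjOn F (ball 0 r)
  zero : F 0 = 0
  der : fderiv ℂ F 0 = ContinuousLinearMap.id ℂ (Cn n)

/-- Normalized Loewner chains: injective holomorphic maps `L t`, `t ≥ 0`, of the unit ball into `ℂⁿ`
with `L t 0 = 0`, `D(L t)(0) = e^t I` and increasing images. -/
structure Chain (n : ℕ) (L : ℝ → Cn n → Cn n) : Prop where
  diff : ∀ t, 0 ≤ t → DifferentiableOn ℂ (L t) (ball 0 1)
  inj : ∀ t, 0 ≤ t → InjOn (L t) (ball 0 1)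
  zero : ∀ t, 0 ≤ t → L t 0 = 0
  der : ∀ t, 0 ≤ t →
    fderiv ℂ (L t) 0 = (Complex.ofReal (Real.exp t)) • ContinuousLinearMap.id ℂ (Cn n)
  mono : ∀ s t, 0 ≤ s → s ≤ t → L s '' ball 0 1 ⊆ L t '' ball 0 1

/-- Runge sets: every holomorphic function on `Ω` is a limit, uniformly on compact subsets of `Ω`, of
polynomials. -/
def Runge (n : ℕ) (Ω : Set (Cn n)) : Prop :=
  ∀ h : Cn n → ℂ, DifferentiableOn ℂ h Ω → ∀ K ⊆ Ω, IsCompact K → ∀ ε : ℝ, 0 < ε →
    ∃ P : MvPolynomial (Fin n) ℂ, ∀ z ∈ K, ‖h z - MvPolynomial.eval (fun i => z i) P‖ ≤ ε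

/-- The diagonal matrix `(u, u⁻¹, 1, …, 1)`, acting on `ℂ^(k+2)`. -/
noncomputable def rot (k : ℕ) (u : ℂ) (z : Cn (k + 2)) : Cn (k + 2) :=
  WithLp.toLp 2 (fun i => if i = 0 then u * z i else if i = 1 then u⁻¹ * z i else z i)

/-- `F` commutes on the ball of radius `r` with the circle group of the `rot k u`, `|u| = 1`. -/
def Eqv (k : ℕ) (r : ℝ) (F : Cn (k + 2) → Cn (k + 2)) : Prop :=
  ∀ u : ℂ, ‖u‖ = 1 → ∀ z ∈ ball (0 : Cn (k + 2)) r, F (rot k u z) = rot k u (F z)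

/-- the first basis vector of `ℂ^(k+2)` -/
noncomputable def e1 (k : ℕ) : Cn (k + 2) := EuclideanSpace.single 0 1

/-! ## The example -/

/-- `a(m) = e^(Am) / Γ(1+m)` -/
noncomputable def av (A m : ℂ) : ℂ := Complex.exp (A * m) * (Complex.Gamma (1 + m))⁻¹

/-- `b(m) = e^(-Am + iπm) / Γ(1-m)` -/
noncomputable def bv (A m : ℂ) : ℂ :=
  Complex.exp (-(A * m) + Real.pi * Complex.I * m) * (Complex.Gamma (1 - m))⁻¹

/-- `F(z) = (z_0 a(m), z_1 b(m), z_2, …)`, `m = 4 z_0 z_1` -/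
noncomputable def FF (k : ℕ) (A : ℂ) (z : Cn (k + 2)) : Cn (k + 2) :=
  WithLp.toLp 2 (fun i => if i = 0 then z 0 * av A (4 * (z 0 * z 1))
    else if i = 1 then z 1 * bv A (4 * (z 0 * z 1)) else z i)

/-- the parameter: `e^A = 4 r²` -/
noncomputable def AA (r : ℝ) : ℂ := (Real.log (4 * r ^ 2) : ℝ)

end Pool.Agent.Lib.MP_465591_an
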