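import Pool.Agent.Lib.MP_465591_an.Spec

/-!
# MP_465591_an: descent along a Loewner chain
-/

set_option autoImplicit false

open Metric Set Filter Topology

namespace Pool.Agent.Lib.MP_465591_an

namespace DescAux

/-- One step of the descent. -/
theorem step (h1 : S_Inv) (h2 : S_Near) (h4 : S_Tr) (n : ℕ) (L : ℝ → Cn n → Cn n)
    (hL : Chain n L) (ρ₀ R δ : ℝ) (e : Cn n) (hρ1 : ρ₀ < 1) (hR : 0 < R)
    (hc : ∀ x : ℂ, ‖x‖ = R → ∃ z : Cn n, ‖z‖ ≤ ρ₀ ∧ L 0 z = x • e)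
    (hδ : ∀ (n : ℕ) (h : Cn n → Cn n) (τ : ℝ), 0 ≤ τ → τ ≤ δ →
      DifferentiableOn ℂ h (ball 0 1) → MapsTo h (ball 0 1) (ball 0 1) → h 0 = 0 →
      fderiv ℂ h 0 = (Complex.ofReal (Real.exp (-τ))) • ContinuousLinearMap.id ℂ (Cn n) →
      (∀ W ⊆ ball (0 : Cn n) 1, IsOpen W → IsOpen (h '' W)) → closedBall 0 ρ₀ ⊆ h '' ball 0 1)
    (s t : ℝ) (hs : 0 ≤ s) (hst : s ≤ t) (hts : t ≤ s + δ)
    (ht : ∀ x : ℂ, ‖x‖ ≤ R → x • e ∈ L t '' ball 0 1) (x : ℂ) (hx : ‖x‖ ≤ R) :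
    x • e ∈ L s '' ball 0 1 := by
  have ht0 : 0 ≤ t := hs.trans hst
  obtain ⟨hopen, g, hg, hgf⟩ := h1 n (L t) (ball 0 1) isOpen_ball (hL.diff t ht0) (hL.inj t ht0)
  obtain ⟨h₀, hd₀, hm₀, hz₀, hdd₀, -, hL₀⟩ := h4 n L hL 0 t le_rfl ht0
  obtain ⟨h, hd, hm, hz, hdd, ho, hLs⟩ := h4 n L hL s t hs hst
  have hsub := hδ n h (t - s) (by linarith) (by linarith) hd hm hz hdd ho
  have hcl : closure (ball (0 : ℂ) R) = closedBall 0 R := closure_ball 0 hR.ne'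
  have hdiff : DifferentiableOn ℂ (fun x : ℂ => g (x • e)) (closedBall 0 R) := by
    refine hg.comp (t := L t '' ball 0 1) ?_ ?_
    · exact (differentiable_id.smul_const e).differentiableOn
    · intro y hy
      exact ht y (by simpa using hy)
  have hdc : DiffContOnCl ℂ (fun x : ℂ => g (x • e)) (ball 0 R) := by
    apply DifferentiableOn.diffContOnCl
    rw [hcl]
    exact hdiff
  have hfr : ∀ y ∈ frontier (ball (0 : ℂ) R), ‖g (y • e)‖ ≤ ρ₀ := by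
    intro y hy
    rw [frontier_ball 0 hR.ne'] at hy
    have hyR : ‖y‖ = R := by simpa using hy
    obtain ⟨z, hzρ, hzy⟩ := hc y hyR
    have hz1 : z ∈ ball (0 : Cn n) 1 := by
      rw [mem_ball_zero_iff]
      linarith
    rw [← hzy, ← hL₀ z hz1, hgf (h₀ z) (hm₀ hz1)]
    exact (h2 n h₀ (t - 0) (by linarith) hd₀ hm₀ hz₀ hdd₀ z hz1).1.trans hzρ
  have hbd : ‖g (x • e)‖ ≤ ρ₀ := by
    refine Complex.norm_le_of_forall_mem_frontier_norm_le (f := fun x : ℂ => g (x • e))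
      isBounded_ball hdc hfr ?_
    rw [hcl]
    simpa using hx
  obtain ⟨y, hy, hyx⟩ := ht x hx
  obtain ⟨w, hw, hwx⟩ := hsub (show g (x • e) ∈ closedBall 0 ρ₀ by simpa using hbd)
  refine ⟨w, hw, ?_⟩
  rw [← hLs w hw, hwx, ← hyx, hgf y hy]

end DescAux

open DescAux in
theorem t_Desc (h1 : S_Inv) (h2 : S_Near) (h3 : S_Sur) (h4 : S_Tr) : S_Desc := by
  intro n L hL ρ₀ R e hρ0 hρ1 hR hc T hT hdisc
  obtain ⟨δ, hδ0, hδ⟩ := h3 ρ₀ hρ0 hρ1
  have key : ∀ (j : ℕ) (T : ℝ), 0 ≤ T → T ≤ j * δ →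
      (∀ x : ℂ, ‖x‖ ≤ R → x • e ∈ L T '' ball 0 1) →
      ∀ x : ℂ, ‖x‖ ≤ R → x • e ∈ L 0 '' ball 0 1 := by
    intro j
    induction j with
    | zero =>
      intro T hT hTj hd
      have : T = 0 := le_antisymm (by simpa using hTj) hT
      rwa [this] at hd
    | succ j ih =>
      intro T hT hTj hd
      have hjδ : 0 ≤ (j : ℝ) * δ := by positivity
      push_cast at hTj
      refine ih (max 0 (T - δ)) (le_max_left _ _) (max_le hjδ (by linarith)) ?_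
      exact step h1 h2 h4 n L hL ρ₀ R δ e hρ1 hR hc hδ (max 0 (T - δ)) T (le_max_left _ _)
        (max_le hT (by linarith)) (by linarith [le_max_right 0 (T - δ)]) hd
  obtain ⟨j, hj⟩ := exists_nat_ge (T / δ)
  exact key j T hT (by rwa [div_le_iff₀ hδ0] at hj) hdisc

end Pool.Agent.Lib.MP_465591_an
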