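import Pool.Agent.Lib.MP_465591_an.Spec

/-!
# MP_465591_an: the assembly of Theorem E
-/

set_option autoImplicit false

open Metric Set Filter Topology

namespace Pool.Agent.Lib.MP_465591_an

theorem t_final (hDesc : S_Desc) (hNR : S_NR) (hAx : S_Ax) (hInj : S_Inj) (hHol : S_Hol)
    (hCirc : S_Circ) (k : ℕ) (r : ℝ) (hr : 1 < r) :
    ∃ F : Cn (k + 2) → Cn (k + 2), IsS (k + 2) r F ∧ Eqv k r F ∧
      ∀ L : ℝ → Cn (k + 2) → Cn (k + 2), Chain (k + 2) L → EqOn (L 0) F (ball 0 1) →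
        (∀ t, 0 ≤ t →
          (∀ x : ℂ, ‖x‖ = 2 * r ^ 2 → x • e1 k ∈ L t '' ball 0 1) ∧
          ¬ (∀ x : ℂ, ‖x‖ ≤ 2 * r ^ 2 → x • e1 k ∈ L t '' ball 0 1) ∧
          ¬ Runge (k + 2) (L t '' ball 0 1)) ∧
        ¬ ∀ t, 0 ≤ t → Eqv k 1 (L t) := by
  have hr0 : 0 < r := by linarith
  obtain ⟨h1, h2, h3, h4⟩ := hHol k (AA r)
  obtain ⟨c1, c2⟩ := hCirc k r hr.le
  refine ⟨FF k (AA r), ⟨h1.differentiableOn, hInj k r hr0, h2, h3⟩, ?_, ?_⟩
  · intro u hu z _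
    apply h4
    intro h
    rw [h, norm_zero] at hu
    exact zero_ne_one hu
  · intro L hL hL0
    have hR : 0 < 2 * r ^ 2 := by positivity
    have hs1 : Real.sqrt (1 / 2) < 1 := by
      rw [Real.sqrt_lt' one_pos]; norm_num
    have hcirc : ∀ x : ℂ, ‖x‖ = 2 * r ^ 2 →
        ∃ z : Cn (k + 2), ‖z‖ ≤ Real.sqrt (1 / 2) ∧ L 0 z = x • e1 k := by
      intro x hx
      obtain ⟨z, hz, hz2⟩ := c1 x hx
      refine ⟨z, hz, ?_⟩
      rw [hL0 (by rw [mem_ball_zero_iff]; exact lt_of_le_of_lt hz hs1)]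
      exact hz2
    have key : ∀ t, 0 ≤ t → (∀ x : ℂ, ‖x‖ = 2 * r ^ 2 → x • e1 k ∈ L t '' ball 0 1) := by
      intro t ht x hx
      obtain ⟨z, hz, hz2⟩ := hcirc x hx
      apply hL.mono 0 t le_rfl ht
      exact ⟨z, by rw [mem_ball_zero_iff]; exact lt_of_le_of_lt hz hs1, hz2⟩
    have hdisc : ∀ t, 0 ≤ t → ¬ (∀ x : ℂ, ‖x‖ ≤ 2 * r ^ 2 → x • e1 k ∈ L t '' ball 0 1) := by
      intro t ht h
      have h5 := hDesc (k + 2) L hL (Real.sqrt (1 / 2)) (2 * r ^ 2) (e1 k) (Real.sqrt_nonneg _)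
        hs1 hR hcirc t ht h 1 (by
          rw [norm_one]; nlinarith)
      obtain ⟨z, hz, hz2⟩ := h5
      apply c2 z hz
      rw [← hL0 hz, hz2, one_smul]
    refine ⟨fun t ht => ⟨key t ht, hdisc t ht, ?_⟩, ?_⟩
    · intro hrun
      exact hdisc t ht (hNR (k + 2) (L t) (hL.diff t ht) (hL.inj t ht) (2 * r ^ 2) (e1 k) hR
        (key t ht) hrun)
    · intro heqv
      obtain ⟨t, ht0, ht⟩ : ∃ t : ℝ, 0 ≤ t ∧ 2 * r ^ 2 < Real.exp t :=
        ⟨2 * r ^ 2, hR.le, by have := Real.add_one_le_exp (2 * r ^ 2); linarith⟩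
      have hpos := Real.exp_pos t
      apply hdisc t ht0
      intro x hx
      have hne : (Complex.ofReal (Real.exp t)) ≠ 0 := by
        exact_mod_cast hpos.ne'
      have hn : ‖(Complex.ofReal (Real.exp t))⁻¹ * x‖ < 1 := by
        rw [norm_mul, norm_inv, Complex.norm_real, Real.norm_of_nonneg hpos.le, inv_mul_lt_iff₀ hpos]
        linarith
      refine ⟨((Complex.ofReal (Real.exp t))⁻¹ * x) • e1 k, ?_, ?_⟩
      · rw [mem_ball_zero_iff, norm_smul]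
        have : ‖e1 k‖ = 1 := by simp [e1]
        rw [this, mul_one]
        exact hn
      · rw [hAx k (L t) _ (hL.diff t ht0) (hL.zero t ht0) (hL.der t ht0) (heqv t ht0) _ hn,
          mul_inv_cancel_left₀ hne]

end Pool.Agent.Lib.MP_465591_an
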