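import Pool.Agent.Lib.MP_465591_an.Spec

set_option autoImplicit false

namespace Pool.Agent.Lib.MP_465591_an

namespace GamAux

theorem av_step (A x : ℂ) : av A x * Complex.exp A = (x + 1) * av A (x + 1) := by
  have h := Complex.one_div_Gamma_eq_self_mul_one_div_Gamma_add_one (1 + x)
  have h1 : Complex.exp (A * (x + 1)) = Complex.exp (A * x) * Complex.exp A := by
    rw [← Complex.exp_add]
    congr 1
    ring
  have h2 : (1 : ℂ) + (x + 1) = 1 + x + 1 := by ring
  rw [av, av, h1, h2, h]
  ring

theorem bv_step (A x : ℂ) : bv A (x + 1) * Complex.exp A = x * bv A x := by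
  have h := Complex.one_div_Gamma_eq_self_mul_one_div_Gamma_add_one (-x)
  have h1 : Complex.exp (-(A * (x + 1)) + Real.pi * Complex.I * (x + 1)) * Complex.exp A
      = -Complex.exp (-(A * x) + Real.pi * Complex.I * x) := by
    have h3 : -(A * (x + 1)) + Real.pi * Complex.I * (x + 1) + A
        = -(A * x) + Real.pi * Complex.I * x + Real.pi * Complex.I := by ring
    rw [← Complex.exp_add, h3, Complex.exp_add _ (Real.pi * Complex.I), Complex.exp_pi_mul_I]
    ring
  have h2 : (1 : ℂ) - (x + 1) = -x := by ring
  have h4 : (-x : ℂ) + 1 = 1 - x := by ring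
  rw [bv, bv, h2, h, h4]
  linear_combination (-x * (Complex.Gamma (1 - x))⁻¹) * h1

end GamAux

open GamAux in
theorem t_Gam : S_Gam := by
  intro A
  refine ⟨?_, ?_, ?_, ?_, ?_, ?_, ?_, ?_, ?_, ?_⟩
  · have h : Differentiable ℂ fun m : ℂ => (Complex.Gamma (1 + m))⁻¹ :=
      Complex.differentiable_one_div_Gamma.comp ((differentiable_const _).add differentiable_id)
    have h2 : Differentiable ℂ fun m : ℂ => Complex.exp (A * m) :=
      ((differentiable_const _).mul differentiable_id).cexp
    exact h2.mul h
  · have h : Differentiable ℂ fun m : ℂ => (Complex.Gamma (1 - m))⁻¹ :=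
      Complex.differentiable_one_div_Gamma.comp ((differentiable_const _).sub differentiable_id)
    have h2 : Differentiable ℂ fun m : ℂ =>
        Complex.exp (-(A * m) + Real.pi * Complex.I * m) :=
      (((differentiable_const _).mul differentiable_id).neg.add
        ((differentiable_const _).mul differentiable_id)).cexp
    exact h2.mul h
  · rw [av, mul_zero, Complex.exp_zero, add_zero, Complex.Gamma_one, inv_one, one_mul]
  · rw [bv, mul_zero, mul_zero, neg_zero, add_zero, Complex.exp_zero, sub_zero, Complex.Gamma_one,
      inv_one, one_mul]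
  · have h := av_step A 0
    rw [zero_add, one_mul] at h
    rw [← h, av, mul_zero, Complex.exp_zero, add_zero, Complex.Gamma_one, inv_one, one_mul,
      one_mul]
  · rw [bv, sub_self, Complex.Gamma_zero, inv_zero, mul_zero]
  · intro m h
    rw [av, mul_eq_zero, inv_eq_zero, Complex.Gamma_eq_zero_iff] at h
    rcases h with h | ⟨j, hj⟩
    · exact absurd h (Complex.exp_ne_zero _)
    · refine ⟨j + 1, by omega, ?_⟩
      push_cast
      linear_combination hj
  · intro m h
    rw [bv, mul_eq_zero, inv_eq_zero, Complex.Gamma_eq_zero_iff] at h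
    rcases h with h | ⟨j, hj⟩
    · exact absurd h (Complex.exp_ne_zero _)
    · refine ⟨j + 1, by omega, ?_⟩
      push_cast
      linear_combination -hj
  · intro m j
    induction j with
    | zero => simp
    | succ j ih =>
      have h := av_step A (m + j)
      have h1 : Complex.exp (A * ((j + 1 : ℕ) : ℂ)) = Complex.exp (A * j) * Complex.exp A := by
        rw [← Complex.exp_add]
        congr 1
        push_cast
        ring
      have h2 : m + ((j + 1 : ℕ) : ℂ) = m + j + 1 := by
        push_cast
        ring
      rw [Finset.prod_range_succ, h1, h2, ← mul_assoc, ih]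
      linear_combination (∏ i ∈ Finset.range j, (m + 1 + i)) * h
  · intro m j
    induction j with
    | zero => simp
    | succ j ih =>
      have h := bv_step A (m + j)
      have h1 : Complex.exp (A * ((j + 1 : ℕ) : ℂ)) = Complex.exp (A * j) * Complex.exp A := by
        rw [← Complex.exp_add]
        congr 1
        push_cast
        ring
      have h2 : m + ((j + 1 : ℕ) : ℂ) = m + j + 1 := by
        push_cast
        ring
      rw [Finset.prod_range_succ, h1, h2]
      linear_combination (Complex.exp (A * j)) * h + (m + j) * ih

end Pool.Agent.Lib.MP_465591_an
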