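import Pool.Agent.Lib.MP_465591_an.Spec

set_option autoImplicit false

open Metric Set

namespace Pool.Agent.Lib.MP_465591_an

namespace HolAux

theorem hasF_coord {n : ℕ} (i : Fin n) (x : Cn n) :
    HasFDerivAt (fun z : Cn n => z i) (EuclideanSpace.proj i : Cn n →L[ℂ] ℂ) x :=
  (EuclideanSpace.proj i : Cn n →L[ℂ] ℂ).hasFDerivAt

theorem diff_coord {n : ℕ} (i : Fin n) : Differentiable ℂ (fun z : Cn n => z i) :=
  fun x => (hasF_coord i x).differentiableAt

theorem diff_arg (k : ℕ) : Differentiable ℂ (fun z : Cn (k + 2) => 4 * (z 0 * z 1)) :=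
  ((diff_coord 0).mul (diff_coord 1)).const_mul 4

theorem hasF_prod {n : ℕ} (i : Fin n) {u : Cn n → ℂ} (hu : Differentiable ℂ u) (h1 : u 0 = 1) :
    HasFDerivAt (fun z : Cn n => z i * u z) (EuclideanSpace.proj i : Cn n →L[ℂ] ℂ) 0 := by
  have h := (hasF_coord i (0 : Cn n)).mul (hu 0).hasFDerivAt
  have h0 : (0 : Cn n) i = 0 := rfl
  refine h.congr_fderiv ?_
  ext v
  simp [h1]

end HolAux

open HolAux in
theorem t_Hol (h1 : S_Gam) : S_Hol := by
  intro k A
  obtain ⟨hda, hdb, ha0, hb0, -⟩ := h1 A
  have ha : Differentiable ℂ (fun z : Cn (k + 2) => av A (4 * (z 0 * z 1))) :=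
    hda.comp (diff_arg k)
  have hb : Differentiable ℂ (fun z : Cn (k + 2) => bv A (4 * (z 0 * z 1))) :=
    hdb.comp (diff_arg k)
  have hz : ∀ i : Fin (k + 2), (0 : Cn (k + 2)) i = 0 := fun _ => rfl
  have key : ∀ i : Fin (k + 2), HasFDerivAt (fun z : Cn (k + 2) => (FF k A z) i)
      (EuclideanSpace.proj i : Cn (k + 2) →L[ℂ] ℂ) 0 := by
    intro i
    by_cases hi0 : i = 0
    · subst hi0
      have e : (fun z : Cn (k + 2) => (FF k A z) 0) =
          fun z : Cn (k + 2) => z 0 * av A (4 * (z 0 * z 1)) := by
        funext z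
        simp [FF]
      rw [e]
      refine hasF_prod 0 ha ?_
      simp only [hz, mul_zero]
      exact ha0
    · by_cases hi1 : i = 1
      · subst hi1
        have e : (fun z : Cn (k + 2) => (FF k A z) 1) =
            fun z : Cn (k + 2) => z 1 * bv A (4 * (z 0 * z 1)) := by
          funext z
          simp [FF]
        rw [e]
        refine hasF_prod 1 hb ?_
        simp only [hz, mul_zero]
        exact hb0
      · have e : (fun z : Cn (k + 2) => (FF k A z) i) = fun z : Cn (k + 2) => z i := by
          funext z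
          simp [FF, hi0, hi1]
        rw [e]
        exact hasF_coord i 0
  have keyd : ∀ i : Fin (k + 2), Differentiable ℂ (fun z : Cn (k + 2) => (FF k A z) i) := by
    intro i
    by_cases hi0 : i = 0
    · subst hi0
      have e : (fun z : Cn (k + 2) => (FF k A z) 0) =
          fun z : Cn (k + 2) => z 0 * av A (4 * (z 0 * z 1)) := by
        funext z
        simp [FF]
      rw [e]
      exact (diff_coord 0).mul ha
    · by_cases hi1 : i = 1
      · subst hi1
        have e : (fun z : Cn (k + 2) => (FF k A z) 1) =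
            fun z : Cn (k + 2) => z 1 * bv A (4 * (z 0 * z 1)) := by
          funext z
          simp [FF]
        rw [e]
        exact (diff_coord 1).mul hb
      · have e : (fun z : Cn (k + 2) => (FF k A z) i) = fun z : Cn (k + 2) => z i := by
          funext z
          simp [FF, hi0, hi1]
        rw [e]
        exact diff_coord i
  refine ⟨differentiable_euclidean.2 keyd, ?_, ?_, ?_⟩
  · ext i
    by_cases hi0 : i = 0
    · subst hi0
      simp [FF]
    · by_cases hi1 : i = 1
      · subst hi1
        simp [FF]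
      · simp [FF]
  · refine HasFDerivAt.fderiv ?_
    rw [← hasFDerivWithinAt_univ, hasFDerivWithinAt_euclidean]
    intro i
    exact (key i).hasFDerivWithinAt
  · intro u hu z
    have e0 : (rot k u z) 0 = u * z 0 := by simp [rot]
    have e1 : (rot k u z) 1 = u⁻¹ * z 1 := by simp [rot]
    have em : (rot k u z) 0 * (rot k u z) 1 = z 0 * z 1 := by
      rw [e0, e1]
      field_simp
    ext i
    by_cases hi0 : i = 0
    · subst hi0
      have a : (FF k A (rot k u z)) 0 =
          (rot k u z) 0 * av A (4 * ((rot k u z) 0 * (rot k u z) 1)) := by simp [FF]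
      have b : (rot k u (FF k A z)) 0 = u * (z 0 * av A (4 * (z 0 * z 1))) := by simp [FF, rot]
      rw [a, b, em, e0]
      ring
    · by_cases hi1 : i = 1
      · subst hi1
        have a : (FF k A (rot k u z)) 1 =
            (rot k u z) 1 * bv A (4 * ((rot k u z) 0 * (rot k u z) 1)) := by simp [FF]
        have b : (rot k u (FF k A z)) 1 = u⁻¹ * (z 1 * bv A (4 * (z 0 * z 1))) := by
          simp [FF, rot]
        rw [a, b, em, e1]
        ring
      · simp [FF, rot, hi0, hi1]

end Pool.Agent.Lib.MP_465591_an
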