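import Pool.Agent.Lib.MP_465591_an.Spec

/-!
# MP_465591_an: injectivity of the example on the ball of radius `r`
-/

set_option autoImplicit false

open Metric Set Filter Topology

namespace Pool.Agent.Lib.MP_465591_an

namespace InjAux

theorem norm_apply_lt {k : ℕ} {r : ℝ} {z : Cn (k + 2)} (hz : z ∈ ball (0 : Cn (k + 2)) r)
    (i : Fin (k + 2)) : ‖z i‖ < r := by
  rw [mem_ball_zero_iff] at hz
  exact (PiLp.norm_apply_le z i).trans_lt hz

theorem sq_add_sq_le {k : ℕ} (z : Cn (k + 2)) : ‖z 0‖ ^ 2 + ‖z 1‖ ^ 2 ≤ ‖z‖ ^ 2 := by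
  rw [EuclideanSpace.norm_sq_eq, Fin.sum_univ_succ, Fin.sum_univ_succ]
  have h : 0 ≤ ∑ i : Fin k, ‖z (Fin.succ (Fin.succ i))‖ ^ 2 :=
    Finset.sum_nonneg fun i _ => by positivity
  have e : (Fin.succ (0 : Fin (k + 1))) = (1 : Fin (k + 2)) := rfl
  rw [e]
  linarith

theorem norm_m_lt {k : ℕ} {r : ℝ} (hr : 0 < r) {z : Cn (k + 2)}
    (hz : z ∈ ball (0 : Cn (k + 2)) r) : ‖4 * (z 0 * z 1)‖ < 2 * r ^ 2 := by
  have h1 := sq_add_sq_le z
  rw [mem_ball_zero_iff] at hz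
  have h2 : ‖z‖ ^ 2 < r ^ 2 := by
    have := norm_nonneg z
    nlinarith
  have h3 : ‖4 * (z 0 * z 1)‖ = 4 * (‖z 0‖ * ‖z 1‖) := by
    rw [norm_mul, norm_mul]
    norm_num
  rw [h3]
  nlinarith [sq_nonneg (‖z 0‖ - ‖z 1‖)]

theorem exp_AA {r : ℝ} (hr : 0 < r) (j : ℕ) :
    Complex.exp (AA r * j) = (((4 * r ^ 2) ^ j : ℝ) : ℂ) := by
  have h : (0 : ℝ) < 4 * r ^ 2 := by positivity
  unfold AA
  rw [mul_comm, Complex.exp_nat_mul, ← Complex.ofReal_exp, Real.exp_log h]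
  push_cast
  ring

/-- The norm of an intermediate point. -/
theorem norm_mid {r : ℝ} (m : ℂ) (j i : ℕ) (hj : 1 ≤ j) (hi : i < j - 1) (h0 : ‖m‖ < 2 * r ^ 2)
    (h1 : ‖m + j‖ < 2 * r ^ 2) : ‖m + 1 + i‖ < 2 * r ^ 2 := by
  have hj0 : (0 : ℝ) < j := by exact_mod_cast hj
  have hb : (0 : ℝ) ≤ ((i : ℝ) + 1) / j := by positivity
  have hb1 : ((i : ℝ) + 1) / j ≤ 1 := by
    rw [div_le_one hj0]
    have h2 : i + 1 ≤ j := by omega
    exact_mod_cast h2
  have h2 := convex_ball (0 : ℂ) (2 * r ^ 2) (x := m) (by rwa [mem_ball_zero_iff])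
    (y := m + j) (by rwa [mem_ball_zero_iff]) (sub_nonneg.2 hb1) hb (by ring)
  rw [mem_ball_zero_iff] at h2
  have h3 : (1 - ((i : ℝ) + 1) / j) • m + (((i : ℝ) + 1) / j) • (m + (j : ℂ)) = m + 1 + i := by
    rw [Complex.real_smul, Complex.real_smul]
    have h4 : (j : ℂ) ≠ 0 := by
      have : (j : ℕ) ≠ 0 := by omega
      exact_mod_cast this
    push_cast
    field_simp
    ring
  rwa [h3] at h2

/-- The values at two different levels are different. -/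
theorem noj (h3 : S_Col) {k : ℕ} {r : ℝ} (hr : 0 < r) {z z' : Cn (k + 2)}
    (hz : z ∈ ball (0 : Cn (k + 2)) r) (hz' : z' ∈ ball (0 : Cn (k + 2)) r) (j : ℕ) (hj : 1 ≤ j)
    (hm : 4 * (z' 0 * z' 1) = 4 * (z 0 * z 1) + j)
    (ha : z 0 * av (AA r) (4 * (z 0 * z 1)) = z' 0 * av (AA r) (4 * (z' 0 * z' 1)))
    (hb : z 1 * bv (AA r) (4 * (z 0 * z 1)) = z' 1 * bv (AA r) (4 * (z' 0 * z' 1))) : False := by
  have h := h3 (AA r) (z 0) (z 1) (z' 0) (z' 1) j hj hm ha hb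
  rw [exp_AA hr] at h
  have hn := congrArg norm h
  rw [Complex.norm_real, norm_mul, norm_prod, Real.norm_eq_abs,
    abs_of_pos (by positivity : (0 : ℝ) < (4 * r ^ 2) ^ j)] at hn
  have hP : ∏ i ∈ Finset.range (j - 1), ‖4 * (z 0 * z 1) + 1 + (i : ℂ)‖ ≤ (2 * r ^ 2) ^ (j - 1) := by
    have h5 : ∏ i ∈ Finset.range (j - 1), ‖4 * (z 0 * z 1) + 1 + (i : ℂ)‖ ≤
        ∏ _i ∈ Finset.range (j - 1), (2 * r ^ 2) := by
      refine Finset.prod_le_prod (fun i _ => norm_nonneg _) fun i hi => ?_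
      refine (norm_mid _ j i hj (Finset.mem_range.1 hi) (norm_m_lt hr hz) ?_).le
      rw [← hm]
      exact norm_m_lt hr hz'
    rwa [Finset.prod_const, Finset.card_range] at h5
  have hx := norm_apply_lt hz 0
  have hy := norm_apply_lt hz' 1
  have h6 : ‖4 * (z 0 * z' 1)‖ < 4 * r ^ 2 := by
    rw [norm_mul, norm_mul, show ‖(4 : ℂ)‖ = 4 by norm_num]
    have := mul_lt_mul'' hx hy (norm_nonneg _) (norm_nonneg _)
    nlinarith
  have h7 : ‖4 * (z 0 * z' 1)‖ * ∏ i ∈ Finset.range (j - 1), ‖4 * (z 0 * z 1) + 1 + (i : ℂ)‖ <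
      4 * r ^ 2 * (4 * r ^ 2) ^ (j - 1) := by
    have h8 : (2 * r ^ 2) ^ (j - 1) ≤ (4 * r ^ 2) ^ (j - 1) :=
      pow_le_pow_left₀ (by positivity) (by nlinarith [sq_nonneg r]) _
    have h9 : (0 : ℝ) < (4 * r ^ 2) ^ (j - 1) := by positivity
    calc ‖4 * (z 0 * z' 1)‖ * ∏ i ∈ Finset.range (j - 1), ‖4 * (z 0 * z 1) + 1 + (i : ℂ)‖
        ≤ ‖4 * (z 0 * z' 1)‖ * (4 * r ^ 2) ^ (j - 1) :=
          mul_le_mul_of_nonneg_left (hP.trans h8) (norm_nonneg _)
      _ < 4 * r ^ 2 * (4 * r ^ 2) ^ (j - 1) := mul_lt_mul_of_pos_right h6 h9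
  have h10 : 4 * r ^ 2 * (4 * r ^ 2) ^ (j - 1) = (4 * r ^ 2) ^ j := by
    rw [← pow_succ']
    congr 1
    omega
  rw [h10] at h7
  exact absurd hn h7.ne'

theorem FF0 {k : ℕ} {A : ℂ} (z : Cn (k + 2)) : FF k A z 0 = z 0 * av A (4 * (z 0 * z 1)) := by
  simp [FF]

theorem FF1 {k : ℕ} {A : ℂ} (z : Cn (k + 2)) : FF k A z 1 = z 1 * bv A (4 * (z 0 * z 1)) := by
  simp [FF]

theorem FFi {k : ℕ} {A : ℂ} (z : Cn (k + 2)) (i : Fin (k + 2)) (h0 : i ≠ 0) (h1 : i ≠ 1) :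
    FF k A z i = z i := by
  simp [FF, h0, h1]

/-- The levels differ by an integer. -/
theorem int_of_eq (h2 : S_Mul) {A x y x' y' : ℂ}
    (ha : x * av A (4 * (x * y)) = x' * av A (4 * (x' * y')))
    (hb : y * bv A (4 * (x * y)) = y' * bv A (4 * (x' * y'))) :
    ∃ n : ℤ, 4 * (x' * y') = 4 * (x * y) + n := by
  have e1 := h2 A (4 * (x * y))
  have e2 := h2 A (4 * (x' * y'))
  have e3 : 4 * (x * y) * (av A (4 * (x * y)) * bv A (4 * (x * y))) =
      4 * (x' * y') * (av A (4 * (x' * y')) * bv A (4 * (x' * y'))) := by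
    linear_combination 4 * (y * bv A (4 * (x * y))) * ha + 4 * (x' * av A (4 * (x' * y'))) * hb
  have hpi : (2 * (Real.pi : ℂ) * Complex.I) ≠ 0 := by
    simp [Real.pi_ne_zero]
  rw [e1, e2, div_left_inj' hpi, sub_left_inj, Complex.exp_eq_exp_iff_exists_int] at e3
  obtain ⟨n, hn⟩ := e3
  refine ⟨-n, ?_⟩
  have h5 : (2 * (Real.pi : ℂ) * Complex.I) * (4 * (x' * y')) =
      (2 * (Real.pi : ℂ) * Complex.I) * (4 * (x * y) + ((-n : ℤ) : ℂ)) := by
    push_cast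
    linear_combination -hn
  exact mul_left_cancel₀ hpi h5

/-- The same level: the first two coordinates agree. -/
theorem same (h1 : S_Gam) {A x y x' y' : ℂ} (hm : 4 * (x' * y') = 4 * (x * y))
    (ha : x * av A (4 * (x * y)) = x' * av A (4 * (x' * y')))
    (hb : y * bv A (4 * (x * y)) = y' * bv A (4 * (x' * y'))) : x = x' ∧ y = y' := by
  obtain ⟨-, -, -, -, -, -, za, zb, -, -⟩ := h1 A
  rw [hm] at ha hb
  by_cases h0 : av A (4 * (x * y)) = 0
  · obtain ⟨l, hl, hml⟩ := za _ h0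
    have hl0 : (l : ℂ) ≠ 0 := by
      have : l ≠ 0 := by omega
      exact_mod_cast this
    have hb0 : bv A (4 * (x * y)) ≠ 0 := by
      intro h
      obtain ⟨l', hl', hml'⟩ := zb _ h
      rw [hml] at hml'
      have h5 : ((l + l' : ℕ) : ℂ) = 0 := by
        push_cast
        linear_combination -hml'
      have h6 : l + l' = 0 := by exact_mod_cast h5
      omega
    have hy : y = y' := mul_right_cancel₀ hb0 hb
    have hm0 : 4 * (x * y) ≠ 0 := by
      rw [hml]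
      exact neg_ne_zero.2 hl0
    have hy0 : y ≠ 0 := by
      rintro rfl
      simp at hm0
    refine ⟨?_, hy⟩
    rw [← hy] at hm
    have h7 : x' * y = x * y := by
      linear_combination (1 / 4 : ℂ) * hm
    exact (mul_right_cancel₀ hy0 h7).symm
  · have hx : x = x' := mul_right_cancel₀ h0 ha
    by_cases h5 : bv A (4 * (x * y)) = 0
    · obtain ⟨l, hl, hml⟩ := zb _ h5
      have hl0 : (l : ℂ) ≠ 0 := by
        have : l ≠ 0 := by omega
        exact_mod_cast this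
      have hx0 : x ≠ 0 := by
        rintro rfl
        simp at hml
        exact hl0 (by exact_mod_cast hml.symm)
      refine ⟨hx, ?_⟩
      rw [← hx] at hm
      have h7 : x * y' = x * y := by
        linear_combination (1 / 4 : ℂ) * hm
      exact (mul_left_cancel₀ hx0 h7).symm
    · exact ⟨hx, mul_right_cancel₀ h5 hb⟩

end InjAux

open InjAux in
/-- Injectivity on the ball of radius `r`. -/
theorem t_Inj (h1 : S_Gam) (h2 : S_Mul) (h3 : S_Col) : S_Inj := by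
  intro k r hr z hz z' hz' hF
  have ha : z 0 * av (AA r) (4 * (z 0 * z 1)) = z' 0 * av (AA r) (4 * (z' 0 * z' 1)) := by
    rw [← FF0, ← FF0, hF]
  have hb : z 1 * bv (AA r) (4 * (z 0 * z 1)) = z' 1 * bv (AA r) (4 * (z' 0 * z' 1)) := by
    rw [← FF1, ← FF1, hF]
  obtain ⟨n, hn⟩ := int_of_eq h2 ha hb
  have hn0 : n = 0 := by
    rcases lt_trichotomy n 0 with hneg | h0 | hpos
    · exfalso
      obtain ⟨j, hj⟩ := Int.eq_ofNat_of_zero_le (show 0 ≤ -n by omega)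
      refine noj h3 hr hz' hz j (by omega) ?_ ha.symm hb.symm
      have h5 : (n : ℂ) = -(j : ℂ) := by
        have h6 : n = -(j : ℤ) := by omega
        rw [h6]
        push_cast
        rfl
      rw [hn, h5]
      ring
    · exact h0
    · exfalso
      obtain ⟨j, hj⟩ := Int.eq_ofNat_of_zero_le hpos.le
      refine noj h3 hr hz hz' j (by omega) ?_ ha hb
      rw [hn, hj]
      push_cast
      rfl
  rw [hn0, Int.cast_zero, add_zero] at hn
  obtain ⟨hx, hy⟩ := same h1 hn ha hb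
  ext i
  by_cases hi0 : i = 0
  · rw [hi0]
    exact hx
  · by_cases hi1 : i = 1
    · rw [hi1]
      exact hy
    · rw [← FFi (A := AA r) z i hi0 hi1, ← FFi (A := AA r) z' i hi0 hi1, hF]

end Pool.Agent.Lib.MP_465591_an
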