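import Pool.Agent.Lib.MP_465591_an.Spec
import Pool.Agent.Lib.Osgood

/-!
# MP_465591_an: the inverse map of an injective holomorphic map
-/

set_option autoImplicit false

open Metric Set Filter Topology

namespace Pool.Agent.Lib.MP_465591_an

theorem t_Inv (h1 : S_Osg) : S_Inv := by
  intro n f U hU hf hinj
  -- the derivative is an equivalence
  have hder : ∀ z ∈ U, ∃ e : Cn n ≃L[ℂ] Cn n, HasStrictFDerivAt f (e : Cn n →L[ℂ] Cn n) z := by
    intro z hz
    have h2 : AnalyticAt ℂ f z := Osgood.analyticOnNhd hU hf z hz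
    have h3 : Function.Injective (fderiv ℂ f z) :=
      h1 n (Cn n) (Cn n) (by simp) (by simp) U f z hU hf hinj hz
    have h4 : Function.Injective ((fderiv ℂ f z : Cn n →L[ℂ] Cn n) : Cn n →ₗ[ℂ] Cn n) := h3
    obtain ⟨e, he⟩ : ∃ e : Cn n ≃L[ℂ] Cn n, (e : Cn n →L[ℂ] Cn n) = fderiv ℂ f z := by
      refine ⟨(LinearEquiv.ofInjectiveEndo _ h4).toContinuousLinearEquiv, ?_⟩
      refine ContinuousLinearMap.ext fun x => ?_
      rfl
    refine ⟨e, ?_⟩
    rw [he]
    exact h2.hasStrictFDerivAt
  have hmap : ∀ z ∈ U, map f (𝓝 z) = 𝓝 (f z) := by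
    intro z hz
    obtain ⟨e, he⟩ := hder z hz
    exact he.map_nhds_eq_of_equiv
  refine ⟨?_, Function.invFunOn f U, ?_, ?_⟩
  · intro W hWU hW
    rw [isOpen_iff_mem_nhds]
    rintro _ ⟨w, hw, rfl⟩
    rw [← hmap w (hWU hw)]
    exact image_mem_map (hW.mem_nhds hw)
  · rintro _ ⟨z, hz, rfl⟩
    obtain ⟨e, he⟩ := hder z hz
    have hg : ∀ x ∈ U, Function.invFunOn f U (f x) = x := fun x hx =>
      hinj.leftInvOn_invFunOn hx
    have hev : ∀ᶠ x in 𝓝 z, Function.invFunOn f U (f x) = x := by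
      filter_upwards [hU.mem_nhds hz] with x hx
      exact hg x hx
    have hcont : ContinuousAt (Function.invFunOn f U) (f z) := by
      change Tendsto _ _ _
      rw [hg z hz, ← hmap z hz, tendsto_map'_iff]
      exact tendsto_id.congr' (hev.mono fun x hx => hx.symm)
    have hder2 : HasFDerivAt f (e : Cn n →L[ℂ] Cn n) (Function.invFunOn f U (f z)) := by
      rw [hg z hz]
      exact he.hasFDerivAt
    have h5 : HasFDerivAt (Function.invFunOn f U) (e.symm : Cn n →L[ℂ] Cn n) (f z) := by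
      refine HasFDerivAt.of_local_left_inverse hcont hder2 ?_
      rw [← hmap z hz, eventually_map]
      exact hev.mono fun x hx => by rw [hx]
    exact h5.differentiableAt.differentiableWithinAt
  · intro z hz
    exact hinj.leftInvOn_invFunOn hz

end Pool.Agent.Lib.MP_465591_an
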