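import Pool.Agent.Lib.MP_465591_an.Spec

/-!
# MP_465591_an: the product of the first two components
-/

set_option autoImplicit false

namespace Pool.Agent.Lib.MP_465591_an

theorem t_Mul : S_Mul := by
  intro A m
  have hpi : (Real.pi : ℂ) ≠ 0 := Complex.ofReal_ne_zero.2 Real.pi_ne_zero
  have h1 : m * (Complex.Gamma (1 + m))⁻¹ = (Complex.Gamma m)⁻¹ := by
    rw [Complex.one_div_Gamma_eq_self_mul_one_div_Gamma_add_one m, add_comm 1 m]
  have h2 : (Complex.Gamma m)⁻¹ * (Complex.Gamma (1 - m))⁻¹ =
      Complex.sin (Real.pi * m) / Real.pi := by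
    rw [← mul_inv, Complex.Gamma_mul_Gamma_one_sub, inv_div]
  have h3 : Complex.exp (A * m) * Complex.exp (-(A * m) + Real.pi * Complex.I * m) =
      Complex.exp (Real.pi * m * Complex.I) := by
    rw [← Complex.exp_add]
    congr 1
    ring
  have h4 : Complex.exp (2 * Real.pi * Complex.I * m) =
      Complex.exp (Real.pi * m * Complex.I) * Complex.exp (Real.pi * m * Complex.I) := by
    rw [← Complex.exp_add]
    congr 1
    ring
  have h5 : Complex.exp (Real.pi * m * Complex.I) * Complex.exp (-(Real.pi * m) * Complex.I) = 1 := by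
    rw [← Complex.exp_add, neg_mul, add_neg_cancel, Complex.exp_zero]
  have h6 : m * (av A m * bv A m) =
      Complex.exp (Real.pi * m * Complex.I) * (Complex.sin (Real.pi * m) / Real.pi) := by
    rw [← h2, ← h1, ← h3]
    unfold av bv
    ring
  have h7 : Complex.exp (Real.pi * m * Complex.I) * Complex.sin (Real.pi * m) =
      (1 - Complex.exp (2 * Real.pi * Complex.I * m)) * Complex.I / 2 := by
    rw [h4, ← h5, Complex.sin]
    ring
  rw [h6, mul_div_assoc', h7]
  field_simp
  rw [Complex.I_sq]
  ring

end Pool.Agent.Lib.MP_465591_an
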