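import Pool.Agent.Lib.MP_465591_an.Spec

set_option autoImplicit false

open Metric Set Filter Topology

namespace Pool.Agent.Lib.MP_465591_an

namespace NearAux

theorem core {n : ℕ} (h1 : S_Pick) (h : Cn n → Cn n) (τ : ℝ) (hτ : 0 ≤ τ)
    (hd : DifferentiableOn ℂ h (ball 0 1)) (hm : MapsTo h (ball 0 1) (ball 0 1)) (h0 : h 0 = 0)
    (hder : fderiv ℂ h 0 = (Complex.ofReal (Real.exp (-τ))) • ContinuousLinearMap.id ℂ (Cn n))
    (z : Cn n) (hz : z ∈ ball (0 : Cn n) 1) (hz0 : z ≠ 0) :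
    ‖h z‖ ≤ ‖z‖ ∧ ‖h z - z‖ ^ 2 ≤ 2 * τ * ((1 + ‖z‖) / (1 - ‖z‖)) := by
  have hn0 : ‖z‖ ≠ 0 := norm_ne_zero_iff.mpr hz0
  have hnpos : 0 < ‖z‖ := norm_pos_iff.mpr hz0
  have hn1 : ‖z‖ < 1 := by simpa using hz
  obtain ⟨v, hv⟩ : ∃ v : Cn n, v = ((‖z‖⁻¹ : ℝ) : ℂ) • z := ⟨_, rfl⟩
  have hvn : ‖v‖ = 1 := by
    rw [hv, norm_smul, Complex.norm_real, Real.norm_eq_abs, abs_of_pos (inv_pos.mpr hnpos),
      inv_mul_cancel₀ hn0]
  have hzv : ((‖z‖ : ℝ) : ℂ) • v = z := by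
    rw [hv, smul_smul, ← Complex.ofReal_mul, mul_inv_cancel₀ hn0, Complex.ofReal_one, one_smul]
  have hmaps : MapsTo (fun x : ℂ => x • v) (ball (0 : ℂ) 1) (ball (0 : Cn n) 1) := by
    intro x hx
    simp only [mem_ball_zero_iff] at hx ⊢
    rw [norm_smul, hvn, mul_one]
    exact hx
  obtain ⟨φ, hφ⟩ : ∃ φ : ℂ → Cn n, φ = fun x : ℂ => h (x • v) := ⟨_, rfl⟩
  have hφd : DifferentiableOn ℂ φ (ball 0 1) := by
    rw [hφ]
    exact hd.comp ((differentiable_id.smul_const v).differentiableOn) hmaps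
  have hφ0 : φ 0 = 0 := by rw [hφ]; simp [h0]
  have hφm : MapsTo φ (ball (0 : ℂ) 1) (closedBall (φ 0) 1) := by
    intro x hx
    rw [hφ0]
    apply ball_subset_closedBall
    rw [hφ]
    exact hm (hmaps hx)
  obtain ⟨k, hk⟩ : ∃ k : ℂ → Cn n, k = dslope φ 0 := ⟨_, rfl⟩
  have hkn : ∀ x ∈ ball (0 : ℂ) 1, ‖k x‖ ≤ 1 := by
    intro x hx
    have := Complex.norm_dslope_le_div_of_mapsTo_ball hφd hφm hx
    rw [hk]
    simpa using this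
  have hkd : DifferentiableOn ℂ k (ball 0 1) := by
    rw [hk]
    exact (Complex.differentiableOn_dslope (ball_mem_nhds 0 one_pos)).mpr hφd
  have hφk : ∀ x : ℂ, φ x = x • k x := by
    intro x
    have := sub_smul_dslope φ 0 x
    rw [hφ0, sub_zero, sub_zero] at this
    rw [hk, this]
  have hzc : ((‖z‖ : ℝ) : ℂ) ∈ ball (0 : ℂ) 1 := by
    rw [mem_ball_zero_iff, Complex.norm_real, Real.norm_eq_abs, abs_of_pos hnpos]
    exact hn1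
  have hnz : ‖((‖z‖ : ℝ) : ℂ)‖ = ‖z‖ := by
    rw [Complex.norm_real, Real.norm_eq_abs, abs_of_pos hnpos]
  have hhz : h z = ((‖z‖ : ℝ) : ℂ) • k ((‖z‖ : ℝ) : ℂ) := by
    rw [← hφk, hφ]
    simp only
    rw [hzv]
  have hk0 : k 0 = ((Real.exp (-τ) : ℝ) : ℂ) • v := by
    rw [hk, dslope_same]
    have e1 : HasFDerivAt h (fderiv ℂ h 0) ((0 : ℂ) • v) := by
      rw [zero_smul]
      exact (hd.differentiableAt (ball_mem_nhds 0 one_pos)).hasFDerivAt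
    have e2 : HasDerivAt (fun x : ℂ => x • v) ((1 : ℂ) • v) 0 := (hasDerivAt_id (0 : ℂ)).smul_const v
    have e3 := e1.comp_hasDerivAt (0 : ℂ) e2
    have e4 : HasDerivAt φ ((fderiv ℂ h 0) ((1 : ℂ) • v)) 0 := by
      rw [hφ]; exact e3
    rw [e4.deriv, hder]
    simp
  obtain ⟨G, hG⟩ : ∃ G : ℂ → ℂ, G = fun x => inner ℂ v (k x) := ⟨_, rfl⟩
  have hGd : DifferentiableOn ℂ G (ball 0 1) := by
    rw [hG]
    exact ((innerSL ℂ v).differentiable.comp_differentiableOn hkd)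
  have hGn : ∀ x ∈ ball (0 : ℂ) 1, ‖G x‖ ≤ 1 := by
    intro x hx
    rw [hG]
    calc ‖inner ℂ v (k x)‖ ≤ ‖v‖ * ‖k x‖ := norm_inner_le_norm _ _
      _ ≤ 1 * 1 := by
          rw [hvn]
          exact mul_le_mul_of_nonneg_left (hkn x hx) zero_le_one
      _ = 1 := one_mul 1
  have hG0 : G 0 = Complex.ofReal (Real.exp (-τ)) := by
    rw [hG]
    simp only
    rw [hk0, inner_smul_right, inner_self_eq_norm_sq_to_K, hvn]
    simp
  have hP := h1 G τ hτ hGd hGn hG0 _ hzc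
  rw [hnz] at hP
  have hkz := hkn _ hzc
  refine ⟨?_, ?_⟩
  · rw [hhz, norm_smul, hnz]
    exact mul_le_of_le_one_right hnpos.le hkz
  · have hsub : h z - z = ((‖z‖ : ℝ) : ℂ) • (k ((‖z‖ : ℝ) : ℂ) - v) := by
      rw [smul_sub, hzv, ← hhz]
    have hnorm : ‖h z - z‖ ≤ ‖k ((‖z‖ : ℝ) : ℂ) - v‖ := by
      rw [hsub, norm_smul, hnz]
      exact mul_le_of_le_one_left (norm_nonneg _) hn1.le
    have hsq : ‖k ((‖z‖ : ℝ) : ℂ) - v‖ ^ 2 ≤ 2 * (1 - (G ((‖z‖ : ℝ) : ℂ)).re) := by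
      have e := @norm_sub_sq ℂ (Cn n) _ _ _ (k ((‖z‖ : ℝ) : ℂ)) v
      have e2 : RCLike.re (inner ℂ (k ((‖z‖ : ℝ) : ℂ)) v) = (G ((‖z‖ : ℝ) : ℂ)).re := by
        rw [hG]
        simp only
        rw [inner_re_symm]
        rfl
      rw [e, e2, hvn]
      have : ‖k ((‖z‖ : ℝ) : ℂ)‖ ^ 2 ≤ 1 := by
        have h0 := norm_nonneg (k ((‖z‖ : ℝ) : ℂ))
        nlinarith
      linarith
    calc ‖h z - z‖ ^ 2 ≤ ‖k ((‖z‖ : ℝ) : ℂ) - v‖ ^ 2 :=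
          pow_le_pow_left₀ (norm_nonneg _) hnorm 2
      _ ≤ 2 * (1 - (G ((‖z‖ : ℝ) : ℂ)).re) := hsq
      _ ≤ 2 * (τ * ((1 + ‖z‖) / (1 - ‖z‖))) := by linarith
      _ = 2 * τ * ((1 + ‖z‖) / (1 - ‖z‖)) := by ring

end NearAux

theorem t_Near (h1 : S_Pick) : S_Near := by
  intro n h τ hτ hd hm h0 hder z hz
  by_cases hz0 : z = 0
  · subst hz0
    rw [h0]
    refine ⟨le_rfl, ?_⟩
    simp
    exact hτ
  · exact NearAux.core h1 h τ hτ hd hm h0 hder z hz hz0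

end Pool.Agent.Lib.MP_465591_an
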