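import Pool.Agent.Lib.MP_465591_an.Spec
import Pool.Agent.Lib.Osgood

/-!
# MP_465591_an: Osgood's theorem in dimension one
-/

set_option autoImplicit false

open Metric Set Filter Topology

namespace Pool.Agent.Lib.MP_465591_an

namespace OneAux

/-- an injective analytic function has nonzero derivative -/
theorem deriv_ne {f : ℂ → ℂ} {a : ℂ} {U : Set ℂ} (hU : U ∈ 𝓝 a) (hf : AnalyticAt ℂ f a)
    (hi : InjOn f U) : deriv f a ≠ 0 := by
  intro h0
  set g : ℂ → ℂ := fun z => f z - f a with hg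
  have hga : AnalyticAt ℂ g a := by fun_prop
  have hne : analyticOrderAt g a ≠ ⊤ := by
    intro h
    rw [analyticOrderAt_eq_top] at h
    have h1 : ∀ᶠ z in 𝓝[≠] a, g z = 0 ∧ z ∈ U := (h.and hU).filter_mono nhdsWithin_le_nhds
    have h2 : ∀ᶠ z in 𝓝[≠] a, z ≠ a := eventually_mem_nhdsWithin
    obtain ⟨z, ⟨hz, hzU⟩, hza⟩ := (h1.and h2).exists
    have : f z = f a := by simpa [hg, sub_eq_zero] using hz
    exact hza (hi hzU (mem_of_mem_nhds hU) this)
  obtain ⟨n, hn⟩ := ENat.ne_top_iff_exists.mp hne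
  obtain ⟨h, hh, hh0, hev⟩ := (hga.analyticOrderAt_eq_natCast).1 hn.symm
  have hn0 : n ≠ 0 := by
    rintro rfl
    have := hev.self_of_nhds
    simp [hg] at this
    exact hh0 this.symm
  have hdg : deriv g a = 0 := by
    simp [hg, h0]
  have hn1 : n ≠ 1 := by
    rintro rfl
    have e1 : deriv g a = deriv (fun z => (z - a) ^ 1 • h z) a := Filter.EventuallyEq.deriv_eq hev
    have e2 : HasDerivAt (fun z => (z - a) ^ 1 • h z) (1 * h a + (a - a) * deriv h a) a := by
      have h1 : HasDerivAt (fun z : ℂ => z - a) 1 a := (hasDerivAt_id a).sub_const a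
      have := h1.mul hh.differentiableAt.hasDerivAt
      refine this.congr_of_eventuallyEq (Eventually.of_forall fun z => ?_)
      simp
    rw [hdg, e2.deriv] at e1
    simp at e1
    exact hh0 e1.symm
  have hnC : (n : ℂ) ≠ 0 := by exact_mod_cast hn0
  obtain ⟨c, hc⟩ : ∃ c : ℂ, c ^ n = h a := IsAlgClosed.exists_pow_nat_eq _ (Nat.pos_of_ne_zero hn0)
  have hc0 : c ≠ 0 := by
    rintro rfl
    rw [zero_pow hn0] at hc
    exact hh0 hc.symm
  set k : ℂ → ℂ := fun z => Complex.exp (Complex.log (h z / h a) / n) with hk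
  have hka : AnalyticAt ℂ k a := by
    have h1 : AnalyticAt ℂ (fun z => h z / h a) a := by fun_prop
    have h2 : h a / h a ∈ Complex.slitPlane := by
      rw [div_self hh0]; exact Complex.one_mem_slitPlane
    have h3 : AnalyticAt ℂ (fun z => Complex.log (h z / h a)) a := h1.clog h2
    fun_prop
  have hk1 : k a = 1 := by
    simp [hk, div_self hh0]
  have hkn : ∀ᶠ z in 𝓝 a, k z ^ n = h z / h a := by
    filter_upwards [hh.continuousAt.eventually_ne hh0] with z hz
    have : h z / h a ≠ 0 := div_ne_zero hz hh0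
    rw [hk]
    simp only
    rw [← Complex.exp_nat_mul, mul_div_cancel₀ _ hnC, Complex.exp_log this]
  set u : ℂ → ℂ := fun z => (z - a) * (c * k z) with hu
  have hua : AnalyticAt ℂ u a := by fun_prop
  have hu0 : u a = 0 := by simp [hu]
  have hdu : HasStrictDerivAt u (deriv u a) a := hua.hasStrictDerivAt
  have hdu1 : deriv u a = c := by
    have h1 : HasDerivAt (fun z : ℂ => z - a) 1 a := (hasDerivAt_id a).sub_const a
    have h2 : HasDerivAt (fun z : ℂ => c * k z) (c * deriv k a) a :=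
      hka.differentiableAt.hasDerivAt.const_mul c
    have := (h1.mul h2).deriv
    rw [show ((fun z : ℂ => z - a) * fun z : ℂ => c * k z) = u from rfl] at this
    rw [this, hk1]
    simp
  have hun : ∀ᶠ z in 𝓝 a, g z = u z ^ n := by
    filter_upwards [hev, hkn] with z h1 h2
    rw [h1, hu]
    simp only
    rw [mul_pow, mul_pow, h2, hc, smul_eq_mul]
    field_simp
  have hmap : map u (𝓝 a) = 𝓝 0 := by
    rw [← hu0]
    exact hdu.map_nhds_eq (by rw [hdu1]; exact hc0)
  set V : Set ℂ := {z | z ∈ U ∧ g z = u z ^ n} with hV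
  have hVm : V ∈ 𝓝 a := (show ∀ᶠ z in 𝓝 a, z ∈ U from hU).and hun
  have hI : u '' V ∈ 𝓝 (0 : ℂ) := by
    rw [← hmap]
    exact image_mem_map hVm
  set w0 : ℂ := Complex.exp (2 * Real.pi * Complex.I / n) with hw0
  have hprim : IsPrimitiveRoot w0 n := Complex.isPrimitiveRoot_exp n hn0
  have hw1 : w0 ≠ 1 := hprim.ne_one (by omega)
  have hI2 : {w : ℂ | w0 * w ∈ u '' V} ∈ 𝓝 (0 : ℂ) := by
    have hcont : ContinuousAt (fun w : ℂ => w0 * w) 0 := by fun_prop
    apply hcont
    simpa using hI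
  have h3 : ∀ᶠ w in 𝓝[≠] (0 : ℂ), w ∈ u '' V ∧ w0 * w ∈ u '' V :=
    (show ∀ᶠ w in 𝓝 (0 : ℂ), w ∈ u '' V ∧ w0 * w ∈ u '' V from
      (show ∀ᶠ w in 𝓝 (0 : ℂ), w ∈ u '' V from hI).and hI2).filter_mono nhdsWithin_le_nhds
  have h4 : ∀ᶠ w in 𝓝[≠] (0 : ℂ), w ≠ 0 := eventually_mem_nhdsWithin
  obtain ⟨w, ⟨⟨z1, hz1, e1⟩, ⟨z2, hz2, e2⟩⟩, hw⟩ := (h3.and h4).exists
  have e3 : g z1 = g z2 := by
    rw [hz1.2, hz2.2, e1, e2, mul_pow, hprim.pow_eq_one, one_mul]
  have e4 : f z1 = f z2 := by simpa [hg] using e3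
  have e5 : z1 = z2 := hi hz1.1 hz2.1 e4
  rw [← e5, e1] at e2
  have : w0 = 1 := by
    have := mul_right_cancel₀ hw (show w0 * w = 1 * w by rw [one_mul]; exact e2.symm)
    exact this
  exact hw1 this


end OneAux

/-- **One.** -/
theorem t_One : S_One := by
  intro E F _ _ _ _ _ _ hE hF U f a hU hf hi ha
  obtain ⟨v, hv, hspan⟩ := finrank_eq_one_iff'.1 hE
  have hF1 : Module.finrank ℂ F = Module.finrank ℂ ℂ := by rw [hF, Module.finrank_self]
  have e : F ≃L[ℂ] ℂ := ContinuousLinearEquiv.ofFinrankEq hF1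
  have hfa : DifferentiableAt ℂ f a := hf.differentiableAt (hU.mem_nhds ha)
  set g : ℂ → ℂ := fun s => e (f (a + s • v)) with hg
  have hline : Continuous (fun s : ℂ => a + s • v) := by fun_prop
  set W : Set ℂ := (fun s : ℂ => a + s • v) ⁻¹' U with hW
  have hWo : IsOpen W := hU.preimage hline
  have h0W : (0 : ℂ) ∈ W := by
    change a + (0 : ℂ) • v ∈ U
    rwa [zero_smul, add_zero]
  have hgW : DifferentiableOn ℂ g W := by
    intro s hs
    have h1 : DifferentiableAt ℂ f (a + s • v) := hf.differentiableAt (hU.mem_nhds hs)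
    have h2 : DifferentiableAt ℂ (fun s : ℂ => a + s • v) s := by fun_prop
    have h3 : DifferentiableAt ℂ (fun s : ℂ => f (a + s • v)) s :=
      DifferentiableAt.comp s h1 h2
    exact (e.differentiableAt.comp s h3).differentiableWithinAt
  have hga : AnalyticAt ℂ g 0 := hgW.analyticAt (hWo.mem_nhds h0W)
  have hgi : InjOn g W := by
    intro s hs t ht hst
    have h1 : f (a + s • v) = f (a + t • v) := e.injective hst
    have h2 := hi hs ht h1
    have h3 : s • v = t • v := add_left_cancel h2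
    exact smul_left_injective ℂ hv h3
  have hd : deriv g 0 ≠ 0 := OneAux.deriv_ne (hWo.mem_nhds h0W) hga hgi
  have hd2 : HasDerivAt g (e (fderiv ℂ f a v)) 0 := by
    have h1 : HasDerivAt (fun s : ℂ => a + s • v) v 0 := by
      simpa using ((hasDerivAt_id (0 : ℂ)).smul_const v).const_add a
    have h2 : HasFDerivAt f (fderiv ℂ f a) (a + (0 : ℂ) • v) := by
      rw [zero_smul, add_zero]
      exact hfa.hasFDerivAt
    have h3 : HasDerivAt (fun s : ℂ => f (a + s • v)) (fderiv ℂ f a v) 0 :=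
      h2.comp_hasDerivAt (0 : ℂ) h1
    exact e.hasFDerivAt.comp_hasDerivAt (0 : ℂ) h3
  rw [hd2.deriv] at hd
  have hv2 : fderiv ℂ f a v ≠ 0 := by
    intro h
    rw [h, map_zero] at hd
    exact hd rfl
  rw [injective_iff_map_eq_zero]
  intro x hx
  obtain ⟨c, rfl⟩ := hspan x
  rw [map_smul] at hx
  rcases smul_eq_zero.1 hx with h | h
  · rw [h, zero_smul]
  · exact absurd h hv2

end Pool.Agent.Lib.MP_465591_an
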