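import Pool.Agent.Lib.MP_465591_an.Spec
import Pool.Agent.Lib.Osgood

/-!
# MP_465591_an, task Osg (helper51): Osgood's theorem, the induction
-/

set_option autoImplicit false

open Metric Set Filter Topology

namespace Pool.Agent.Lib.MP_465591_an

namespace OsgAux

section

variable {E F : Type} [NormedAddCommGroup E] [NormedSpace ℂ E] [NormedAddCommGroup F]
  [NormedSpace ℂ F]

/-- a curve through critical points of an injective map is constant -/
theorem curve {f : E → F} {U : Set E} (hU : IsOpen U) (hf : DifferentiableOn ℂ f U)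
    (hi : InjOn f U) {c : ℂ → E} {x₀ : ℂ}
    (hc : ∀ᶠ x in 𝓝 x₀, DifferentiableAt ℂ c x ∧ c x ∈ U ∧ fderiv ℂ f (c x) = 0) :
    ∀ᶠ x in 𝓝 x₀, c x = c x₀ := by
  obtain ⟨r, hr, hb⟩ := Metric.eventually_nhds_iff_ball.1 hc
  have hd : ∀ x ∈ ball x₀ r, HasDerivAt (f ∘ c) 0 x := by
    intro x hx
    obtain ⟨h1, h2, h3⟩ := hb x hx
    have h4 := (hf.differentiableAt (hU.mem_nhds h2)).hasFDerivAt
    rw [h3] at h4
    have h5 := h4.comp_hasDerivAt x h1.hasDerivAt
    simpa using h5
  have hx₀ : x₀ ∈ ball x₀ r := mem_ball_self hr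
  filter_upwards [ball_mem_nhds x₀ hr] with x hx
  have h1 := Convex.norm_image_sub_le_of_norm_deriv_le (f := f ∘ c) (C := 0) (s := ball x₀ r)
    (fun y hy => (hd y hy).differentiableAt) (fun y hy => by rw [(hd y hy).deriv, norm_zero])
    (convex_ball x₀ r) hx₀ hx
  rw [zero_mul] at h1
  have h2 : f (c x) = f (c x₀) := sub_eq_zero.1 (norm_le_zero_iff.1 h1)
  exact hi (hb x hx).2.1 (hb x₀ hx₀).2.1 h2

/-- the determinant of the derivative -/
theorem det_diff {n : ℕ} [FiniteDimensional ℂ E] (b : Module.Basis (Fin n) ℂ E) :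
    Differentiable ℂ (fun A : E →L[ℂ] E => LinearMap.det (A : E →ₗ[ℂ] E)) := by
  have h : (fun A : E →L[ℂ] E => LinearMap.det (A : E →ₗ[ℂ] E)) =
      fun A => ∑ σ : Equiv.Perm (Fin n),
      ((Equiv.Perm.sign σ : ℤ) : ℂ) * ∏ i, b.coord (σ i) (A (b i)) := by
    funext A
    rw [← LinearMap.det_toMatrix b, Matrix.det_apply]
    refine Finset.sum_congr rfl fun σ _ => ?_
    rw [Units.smul_def, zsmul_eq_mul]
    refine congrArg₂ (· * ·) rfl (Finset.prod_congr rfl fun i _ => ?_)
    rw [LinearMap.toMatrix_apply]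
    rfl
  rw [h]
  have h1 : ∀ (v : E) (i : Fin n), Differentiable ℂ (fun A : E →L[ℂ] E => b.coord i (A v)) := by
    intro v i
    have h2 : Differentiable ℂ (LinearMap.toContinuousLinearMap (b.coord i)) :=
      (LinearMap.toContinuousLinearMap (b.coord i)).differentiable
    exact h2.comp (ContinuousLinearMap.apply ℂ E v).differentiable
  fun_prop (disch := exact h1 _ _)

end

end OsgAux

open OsgAux in
/-- **Osg**.  Osgood's theorem. -/
theorem t_Osg (h1 : S_One) (h2 : S_ZC) (h3 : S_Red) : S_Osg := by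
  intro n
  induction n with
  | zero =>
    intro E F _ _ _ _ _ _ hE hF U f a hU hf hi ha
    have : Subsingleton E := Module.finrank_zero_iff.1 hE
    exact Function.injective_of_subsingleton _
  | succ n ih =>
    rcases Nat.eq_zero_or_pos n with hn | hn
    · subst hn
      exact h1
    intro E F _ _ _ _ _ _ hE hF U f a hU hf hi ha
    by_contra hni
    have hred : ∀ z ∈ U, fderiv ℂ f z ≠ 0 → Function.Injective (fderiv ℂ f z) :=
      fun z hz hne => h3 n ih E F hE hF U f z hU hf hi hz hne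
    have ha0 : fderiv ℂ f a = 0 := by
      by_contra hne
      exact hni (hred a ha hne)
    have : CompleteSpace F := FiniteDimensional.complete ℂ F
    -- an isomorphism and a basis
    let e : F ≃L[ℂ] E := ContinuousLinearEquiv.ofFinrankEq (by rw [hE, hF])
    let b : Module.Basis (Fin (n + 1)) ℂ E := Module.finBasisOfFinrankEq ℂ E hE
    let G : E → E →L[ℂ] E := fun z => (e : F →L[ℂ] E).comp (fderiv ℂ f z)
    let d : E → ℂ := fun z => LinearMap.det (G z : E →ₗ[ℂ] E)
    have hGd : DifferentiableOn ℂ G U := by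
      have h4 := Pool.Agent.Lib.Osgood.differentiableOn_fderiv hU hf
      intro z hz
      exact (ContinuousLinearMap.compL ℂ E F E (e : F →L[ℂ] E)).differentiableAt.comp_differentiableWithinAt z (h4 z hz)
    have hdd : DifferentiableOn ℂ d U := (det_diff b).comp_differentiableOn hGd
    have hd0 : ∀ z ∈ U, d z = 0 → fderiv ℂ f z = 0 := by
      intro z hz hdz
      by_contra hne
      have h5 : Function.Injective (G z : E →ₗ[ℂ] E) := e.injective.comp (hred z hz hne)
      have h6 := (LinearEquiv.ofInjectiveEndo (G z : E →ₗ[ℂ] E) h5).isUnit_det'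
      have h7 : ((LinearEquiv.ofInjectiveEndo (G z : E →ₗ[ℂ] E) h5 : E ≃ₗ[ℂ] E) : E →ₗ[ℂ] E) =
          (G z : E →ₗ[ℂ] E) := by
        ext x
        rfl
      rw [h7] at h6
      exact h6.ne_zero hdz
    have hda : d a = 0 := by
      have h5 : G a = 0 := by
        change (e : F →L[ℂ] E).comp (fderiv ℂ f a) = 0
        rw [ha0, ContinuousLinearMap.comp_zero]
      change LinearMap.det (G a : E →ₗ[ℂ] E) = 0
      rw [h5]
      have h6 : ((0 : E →L[ℂ] E) : E →ₗ[ℂ] E) = 0 := rfl
      rw [h6, LinearMap.det_zero, hE, zero_pow (Nat.succ_ne_zero n)]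
    -- two independent vectors
    have hfr : 1 < Module.finrank ℂ E := by omega
    have hnt : Nontrivial E := Module.nontrivial_of_finrank_pos (by omega : 0 < Module.finrank ℂ E)
    obtain ⟨v1, hv1⟩ := exists_ne (0 : E)
    obtain ⟨v2, hv⟩ := exists_linearIndependent_pair_of_one_lt_finrank hfr hv1
    have hli := LinearIndependent.pair_iff.1 hv
    let ι : ℂ × ℂ → E := fun p => a + p.1 • v1 + p.2 • v2
    have hιd : Differentiable ℂ ι := by
      intro p
      exact ((differentiableAt_fst.smul_const v1).const_add a).add (differentiableAt_snd.smul_const v2)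
    have hNo : IsOpen (ι ⁻¹' U) := hU.preimage hιd.continuous
    have hPd : DifferentiableOn ℂ (fun p => d (ι p)) (ι ⁻¹' U) :=
      hdd.comp hιd.differentiableOn fun p hp => hp
    obtain ⟨x₀, Y, hY⟩ := h2 (fun p => d (ι p)) (ι ⁻¹' U) hNo hPd ⟨0, by
        have h0 : ι 0 = a := by simp [ι]
        exact ⟨by rw [mem_preimage, h0]; exact ha, by simp only [h0]; exact hda⟩⟩ (by
      intro x y hxy _ hev
      have hc : ∀ᶠ t in 𝓝 y, DifferentiableAt ℂ (fun t => ι (x, t)) t ∧ ι (x, t) ∈ U ∧
          fderiv ℂ f (ι (x, t)) = 0 := by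
        have hcont : Continuous fun t : ℂ => ι (x, t) := hιd.continuous.comp (by fun_prop)
        have hN : ∀ᶠ t in 𝓝 y, ι (x, t) ∈ U := hcont.continuousAt.eventually_mem (hU.mem_nhds hxy)
        filter_upwards [hev, hN] with t ht1 ht2
        refine ⟨?_, ht2, hd0 _ ht2 ht1⟩
        exact (hιd (x, t)).comp t (by fun_prop)
      have h8 := curve hU hf hi hc
      obtain ⟨t, ht, hty⟩ := (h8.filter_mono nhdsWithin_le_nhds).and
        (self_mem_nhdsWithin : {y}ᶜ ∈ 𝓝[≠] y) |>.exists
      have h9 : a + x • v1 + t • v2 = a + x • v1 + y • v2 := ht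
      have h10 : (0 : ℂ) • v1 + (t - y) • v2 = 0 := by
        rw [zero_smul, zero_add, sub_smul, sub_eq_zero]
        exact add_left_cancel h9
      exact hty (sub_eq_zero.1 (hli 0 (t - y) h10).2))
    -- the curve of critical points
    have hc : ∀ᶠ x in 𝓝 x₀, DifferentiableAt ℂ (fun x => ι (x, Y x)) x ∧ ι (x, Y x) ∈ U ∧
        fderiv ℂ f (ι (x, Y x)) = 0 := by
      filter_upwards [hY] with x hx
      refine ⟨?_, hx.2.1, hd0 _ hx.2.1 hx.2.2⟩
      have h11 : DifferentiableAt ℂ (fun x : ℂ => (x, Y x)) x := differentiableAt_id.prodMk hx.1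
      exact (hιd (x, Y x)).comp x h11
    have h8 := curve hU hf hi hc
    obtain ⟨x, hx, hxx⟩ := (h8.filter_mono nhdsWithin_le_nhds).and
      (self_mem_nhdsWithin : {x₀}ᶜ ∈ 𝓝[≠] x₀) |>.exists
    have h9 : a + x • v1 + Y x • v2 = a + x₀ • v1 + Y x₀ • v2 := hx
    have h10 : (x - x₀) • v1 + (Y x - Y x₀) • v2 = 0 := by
      rw [add_assoc, add_assoc] at h9
      have h12 := add_left_cancel h9
      rw [sub_smul, sub_smul, sub_add_sub_comm, h12, sub_self]
    exact hxx (sub_eq_zero.1 (hli _ _ h10).1)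

end Pool.Agent.Lib.MP_465591_an
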