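import Pool.Agent.Lib.MP_465591_an.Spec

/-!
# MP_465591_an: a consequence of the lemma of Schwarz and Pick
-/

set_option autoImplicit false

open Metric Set

namespace Pool.Agent.Lib.MP_465591_an

namespace PickAux

theorem normSq_le (c : ℝ) (hc0 : 0 ≤ c) (hc1 : c ≤ 1) (w : ℂ) (hw : ‖w‖ ≤ 1) :
    ‖w - (c : ℂ)‖ ≤ ‖1 - (c : ℂ) * w‖ := by
  have h2 : ‖w‖ ^ 2 ≤ 1 := by nlinarith [norm_nonneg w]
  rw [← Complex.normSq_eq_norm_sq, Complex.normSq_apply] at h2
  refine (sq_le_sq₀ (norm_nonneg _) (norm_nonneg _)).1 ?_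
  rw [← Complex.normSq_eq_norm_sq, ← Complex.normSq_eq_norm_sq, Complex.normSq_apply,
    Complex.normSq_apply]
  simp only [Complex.sub_re, Complex.sub_im, Complex.ofReal_re, Complex.ofReal_im, Complex.one_re,
    Complex.one_im, Complex.mul_re, Complex.mul_im, zero_mul, sub_zero, add_zero]
  nlinarith [mul_nonneg (by nlinarith : (0 : ℝ) ≤ 1 - c ^ 2)
    (by linarith : (0 : ℝ) ≤ 1 - (w.re * w.re + w.im * w.im))]

theorem ne_zero (c : ℝ) (hc0 : 0 ≤ c) (hc1 : c < 1) (w : ℂ) (hw : ‖w‖ ≤ 1) :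
    1 - (c : ℂ) * w ≠ 0 := by
  intro h
  have h1 : ‖(c : ℂ) * w‖ = 1 := by
    rw [show (c : ℂ) * w = 1 by linear_combination -h]; simp
  rw [norm_mul, Complex.norm_real, Real.norm_of_nonneg hc0] at h1
  nlinarith [norm_nonneg w]

end PickAux

theorem t_Pick : S_Pick := by
  intro G τ hτ hd hb h0 x hx
  have hr1 : ‖x‖ < 1 := by simpa using hx
  have hr0 : 0 ≤ ‖x‖ := norm_nonneg x
  have hpos : 0 < 1 - ‖x‖ := by linarith
  rcases hτ.eq_or_lt with h | hpt
  · subst h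
    have hm : IsMaxOn (norm ∘ G) (ball (0 : ℂ) 1) 0 := by
      intro z hz
      simp only [Function.comp_apply, Set.mem_ofPred_eq]
      rw [h0]
      simpa using hb z hz
    have he := Complex.eqOn_of_isPreconnected_of_isMaxOn_norm
      (convex_ball (0 : ℂ) 1).isPreconnected isOpen_ball hd (by simp) hm hx
    simp only [Function.const_apply] at he
    rw [he, h0]
    simp
  · obtain ⟨c, hc⟩ : ∃ c : ℝ, c = Real.exp (-τ) := ⟨_, rfl⟩
    have hc0 : 0 < c := by rw [hc]; exact Real.exp_pos _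
    have hc1 : c < 1 := by rw [hc, Real.exp_lt_one_iff]; linarith
    have h1c : 1 - c ≤ τ := by rw [hc]; linarith [Real.add_one_le_exp (-τ)]
    rw [← hc] at h0
    have hf : DifferentiableOn ℂ (fun z => (G z - (c : ℂ)) / (1 - (c : ℂ) * G z)) (ball 0 1) :=
      (hd.sub_const _).div ((differentiableOn_const _).sub (hd.const_mul _))
        (fun z hz => PickAux.ne_zero c hc0.le hc1 _ (hb z hz))
    have hmaps : MapsTo (fun z => (G z - (c : ℂ)) / (1 - (c : ℂ) * G z)) (ball 0 1)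
        (closedBall 0 1) := by
      intro z hz
      rw [mem_closedBall_zero_iff, norm_div]
      exact div_le_one_of_le₀ (PickAux.normSq_le c hc0.le hc1.le _ (hb z hz)) (norm_nonneg _)
    have hS := Complex.norm_le_norm_of_mapsTo_ball hf hmaps (by simp [h0]) hr1
    have hq : 0 < ‖1 - (c : ℂ) * G x‖ :=
      norm_pos_iff.2 (PickAux.ne_zero c hc0.le hc1 _ (hb x hx))
    rw [norm_div, div_le_iff₀ hq] at hS
    have hT : ‖1 - (c : ℂ) * G x‖ ≤ (1 - c ^ 2) + c * ‖G x - (c : ℂ)‖ := by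
      have h1 : 1 - (c : ℂ) * G x = (((1 - c ^ 2 : ℝ)) : ℂ) - (c : ℂ) * (G x - (c : ℂ)) := by
        push_cast; ring
      rw [h1]
      refine (norm_sub_le _ _).trans ?_
      rw [Complex.norm_real, Real.norm_of_nonneg (by nlinarith), norm_mul, Complex.norm_real,
        Real.norm_of_nonneg hc0.le]
    have hre : 1 - (G x).re ≤ (1 - c) + ‖G x - (c : ℂ)‖ := by
      have := Complex.abs_re_le_norm (G x - (c : ℂ))
      rw [Complex.sub_re, Complex.ofReal_re] at this
      have h2 := neg_abs_le ((G x).re - c)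
      linarith
    obtain ⟨D, hD⟩ : ∃ D : ℝ, D = ‖G x - (c : ℂ)‖ := ⟨_, rfl⟩
    obtain ⟨r, hr⟩ : ∃ r : ℝ, r = ‖x‖ := ⟨_, rfl⟩
    rw [← hD] at hre hT hS
    rw [← hr] at hS hr1 hr0 hpos ⊢
    have hD0 : 0 ≤ D := by rw [hD]; exact norm_nonneg _
    have h3 : D ≤ r * ((1 - c ^ 2) + D) := by
      refine hS.trans (mul_le_mul_of_nonneg_left (hT.trans ?_) hr0)
      nlinarith
    have h4 : D * (1 - r) ≤ 2 * r * (1 - c) := by nlinarith
    have h5 : (1 - (G x).re) * (1 - r) ≤ τ * (1 + r) := by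
      have h6 : (1 - (G x).re) * (1 - r) ≤ ((1 - c) + D) * (1 - r) :=
        mul_le_mul_of_nonneg_right hre hpos.le
      nlinarith
    rw [← mul_div_assoc, le_div_iff₀ hpos]
    exact h5

end Pool.Agent.Lib.MP_465591_an
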