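import Pool.Agent.Lib.MP_465591_an.Spec
import Pool.Agent.Lib.Osgood

/-!
# MP_465591_an, Theorem E: the reduction to a hypersurface (`S_Red`)
-/

set_option autoImplicit false

open Metric Set Filter Topology

namespace Pool.Agent.Lib.MP_465591_an

namespace RedAux

/-- the kernel of a functional with a value `1` has codimension one -/
theorem finrank_ker {E : Type} [NormedAddCommGroup E] [NormedSpace ℂ E] [FiniteDimensional ℂ E]
    {n : ℕ} (hE : Module.finrank ℂ E = n + 1) (m : E →L[ℂ] ℂ) (w : E) (hw : m w = 1) :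
    Module.finrank ℂ (LinearMap.ker (m : E →ₗ[ℂ] ℂ)) = n := by
  have h1 := LinearMap.finrank_range_add_finrank_ker (m : E →ₗ[ℂ] ℂ)
  have h2 : LinearMap.range (m : E →ₗ[ℂ] ℂ) = ⊤ := by
    rw [LinearMap.range_eq_top]
    intro c
    refine ⟨c • w, ?_⟩
    rw [map_smul]
    change c • m w = c
    rw [hw, smul_eq_mul, mul_one]
  rw [h2, finrank_top, Module.finrank_self, hE] at h1
  omega

end RedAux

open RedAux in
theorem t_Red : S_Red := by
  intro n hOS E F _ _ _ _ _ _ hE hF U f a hU hf hinj ha hne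
  have : CompleteSpace E := FiniteDimensional.complete ℂ E
  have : CompleteSpace F := FiniteDimensional.complete ℂ F
  obtain ⟨L, hL⟩ : ∃ L, L = fderiv ℂ f a := ⟨_, rfl⟩
  rw [← hL] at hne ⊢
  have hfa : HasFDerivAt f L a := by
    rw [hL]
    exact ((hf a ha).differentiableAt (hU.mem_nhds ha)).hasFDerivAt
  -- the functional and the vector
  obtain ⟨w0, hw0⟩ : ∃ w0, L w0 ≠ 0 := by
    by_contra hcon
    push Not at hcon
    exact hne (ContinuousLinearMap.ext hcon)
  obtain ⟨l, hl⟩ := SeparatingDual.exists_ne_zero (R := ℂ) hw0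
  obtain ⟨w, hw⟩ : ∃ w, l (L w) = 1 :=
    ⟨(l (L w0))⁻¹ • w0, by rw [map_smul, map_smul, smul_eq_mul, inv_mul_cancel₀ hl]⟩
  obtain ⟨m, hm⟩ : ∃ m : E →L[ℂ] ℂ, m = l ∘L L := ⟨_, rfl⟩
  have hmw : m w = 1 := by rw [hm]; exact hw
  let H : Submodule ℂ E := LinearMap.ker (m : E →ₗ[ℂ] ℂ)
  let K : Submodule ℂ F := LinearMap.ker (l : F →ₗ[ℂ] ℂ)
  have hHf : Module.finrank ℂ H = n := finrank_ker hE m w hmw
  have hKf : Module.finrank ℂ K = n := finrank_ker hF l (L w) hw
  have hHm : ∀ x : H, l (L (x : E)) = 0 := by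
    intro x
    have := x.2
    rw [LinearMap.mem_ker] at this
    have h2 : m (x : E) = 0 := this
    rw [hm] at h2
    exact h2
  -- the implicit function
  let A : H × ℂ →L[ℂ] E := H.subtypeL ∘L ContinuousLinearMap.fst ℂ H ℂ +
    (ContinuousLinearMap.snd ℂ H ℂ).smulRight w
  let G : H × ℂ → ℂ := fun p => l (f (a + A p))
  have hA0 : a + A (0, 0) = a := by
    have : A (0, 0) = 0 := map_zero A
    rw [this, add_zero]
  have hGd : HasFDerivAt G (l ∘L (L ∘L A)) (0, 0) := by
    have h1 : HasFDerivAt (fun p : H × ℂ => a + A p) A (0, 0) := A.hasFDerivAt.const_add a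
    have h2 : HasFDerivAt f L (a + A (0, 0)) := by rw [hA0]; exact hfa
    have h3 : HasFDerivAt (fun p : H × ℂ => f (a + A p)) (L ∘L A) (0, 0) :=
      HasFDerivAt.comp (g := f) (f := fun p : H × ℂ => a + A p) (0, 0) h2 h1
    exact HasFDerivAt.comp (g := fun y => l y) (f := fun p : H × ℂ => f (a + A p)) (0, 0)
      l.hasFDerivAt h3
  have hfan : AnalyticAt ℂ f a := Pool.Agent.Lib.Osgood.analyticOnNhd hU hf a ha
  have hGc : ContDiffAt ℂ 1 G (0, 0) := by
    have h1 : ContDiffAt ℂ 1 (fun p : H × ℂ => a + A p) (0, 0) :=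
      (contDiff_const.add A.contDiff).contDiffAt
    have h2 : ContDiffAt ℂ 1 f (a + A (0, 0)) := by
      rw [hA0]
      exact hfan.contDiffAt
    exact (l.contDiff.contDiffAt).comp _ (ContDiffAt.comp (0, 0) h2 h1)
  have hinr : fderiv ℂ G (0, 0) ∘L .inr ℂ H ℂ = ContinuousLinearMap.id ℂ ℂ := by
    rw [hGd.fderiv]
    ext
    change l (L (((0 : H) : E) + (1 : ℂ) • w)) = 1
    rw [Submodule.coe_zero, zero_add, one_smul]
    exact hw
  have hinl : fderiv ℂ G (0, 0) ∘L .inl ℂ H ℂ = 0 := by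
    rw [hGd.fderiv]
    ext x
    change l (L ((x : E) + (0 : ℂ) • w)) = 0
    rw [zero_smul, add_zero]
    exact hHm x
  have hinv : (fderiv ℂ G (0, 0) ∘L .inr ℂ H ℂ).IsInvertible := by
    rw [hinr]
    exact ⟨ContinuousLinearEquiv.refl ℂ ℂ, rfl⟩
  obtain ⟨ψ, hψ⟩ : ∃ ψ, ψ = hGc.implicitFunction one_ne_zero hinv := ⟨_, rfl⟩
  have ψ0 : ψ 0 = 0 := by
    rw [hψ]
    exact hGc.implicitFunction_apply_self one_ne_zero hinv
  have ψ1 : ∀ᶠ x in 𝓝 (0 : H), G (x, ψ x) = G (0, 0) := by
    rw [hψ]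
    exact hGc.eventually_apply_implicitFunction one_ne_zero hinv
  have ψ2 : HasFDerivAt ψ (0 : H →L[ℂ] ℂ) 0 := by
    have h := (hGc.hasStrictFDerivAt_implicitFunction one_ne_zero hinv).hasFDerivAt
    rw [hinl, ContinuousLinearMap.comp_zero, neg_zero, ← hψ] at h
    exact h
  have ψ3 : ∀ᶠ x in 𝓝 (0 : H), DifferentiableAt ℂ ψ x := by
    have h := hGc.contDiffAt_implicitFunction one_ne_zero hinv
    rw [← hψ] at h
    have h2 := h.eventually (by decide)
    exact h2.mono fun x hx => hx.differentiableAt one_ne_zero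
  -- the map on the hypersurface
  let c : H → E := fun h => a + ((h : E) + ψ h • w)
  have hc0 : c 0 = a := by
    change a + (((0 : H) : E) + ψ 0 • w) = a
    rw [ψ0, zero_smul, Submodule.coe_zero, add_zero, add_zero]
  have hcd : HasFDerivAt c H.subtypeL 0 := by
    have h1 : HasFDerivAt (fun h : H => (h : E)) H.subtypeL 0 := H.subtypeL.hasFDerivAt
    have h2 : HasFDerivAt (fun h : H => ψ h • w) ((0 : H →L[ℂ] ℂ).smulRight w) 0 :=
      ψ2.smul_const w
    have h3 := (h1.add h2).const_add a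
    have h4 : H.subtypeL + (0 : H →L[ℂ] ℂ).smulRight w = H.subtypeL := by
      ext x
      simp
    rw [h4] at h3
    exact h3
  have hcU : ∀ᶠ x in 𝓝 (0 : H), c x ∈ U := by
    have h1 : Tendsto c (𝓝 0) (𝓝 a) := by
      have := hcd.continuousAt.tendsto
      rw [hc0] at this
      exact this
    exact h1.eventually (hU.mem_nhds ha)
  let π : F →L[ℂ] K := (ContinuousLinearMap.id ℂ F - l.smulRight (L w)).codRestrict K (by
    intro y
    rw [LinearMap.mem_ker]
    change l (y - l y • L w) = 0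
    rw [map_sub, map_smul, hw, smul_eq_mul, mul_one, sub_self])
  have hπ : ∀ y : F, ((π y : K) : F) = y - l y • L w := fun y => rfl
  let q : H → K := fun h => π (f (c h))
  obtain ⟨ε, hε, hball⟩ := Metric.eventually_nhds_iff_ball.1 (ψ1.and (ψ3.and hcU))
  have hGc' : ∀ x ∈ ball (0 : H) ε, l (f (c x)) = l (f a) := by
    intro x hx
    have h1 := (hball x hx).1
    have h2 : G (x, ψ x) = l (f (c x)) := rfl
    have h3 : G (0, 0) = l (f a) := by
      change l (f (a + A (0, 0))) = l (f a)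
      rw [hA0]
    rw [h2, h3] at h1
    exact h1
  have qd : DifferentiableOn ℂ q (ball 0 ε) := by
    intro x hx
    apply DifferentiableAt.differentiableWithinAt
    obtain ⟨-, h2, h3⟩ := hball x hx
    have hfx : DifferentiableAt ℂ f (c x) := (hf _ h3).differentiableAt (hU.mem_nhds h3)
    have hcx : DifferentiableAt ℂ c x := by
      have h4 : DifferentiableAt ℂ (fun h : H => (h : E)) x := H.subtypeL.differentiableAt
      exact (h4.add (h2.smul_const w)).const_add a
    exact π.differentiableAt.comp x (hfx.comp x hcx)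
  have qi : InjOn q (ball 0 ε) := by
    intro x hx y hy hxy
    have h1 : ((q x : K) : F) = ((q y : K) : F) := by rw [hxy]
    have h2 : f (c x) = f (c y) := by
      change ((π (f (c x)) : K) : F) = ((π (f (c y)) : K) : F) at h1
      rw [hπ, hπ, hGc' x hx, hGc' y hy] at h1
      exact sub_left_injective h1
    have h3 : c x = c y := hinj (hball x hx).2.2 (hball y hy).2.2 h2
    have h4 : ((x : E) + ψ x • w) = ((y : E) + ψ y • w) := add_left_cancel h3
    have h5 : ψ x = ψ y := by
      have h6 : l (L ((x : E) + ψ x • w)) = l (L ((y : E) + ψ y • w)) := by rw [h4]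
      rw [map_add, map_add, map_add, map_add, map_smul, map_smul, map_smul, map_smul, hHm, hHm,
        hw, smul_eq_mul, smul_eq_mul, mul_one, mul_one, zero_add, zero_add] at h6
      exact h6
    rw [h5] at h4
    exact Subtype.ext (add_right_cancel h4)
  have key := hOS H K hHf hKf (ball 0 ε) q 0 isOpen_ball qd qi (mem_ball_self hε)
  have hq' : HasFDerivAt q (π ∘L (L ∘L H.subtypeL)) 0 := by
    have h1 : HasFDerivAt f L (c 0) := by rw [hc0]; exact hfa
    exact π.hasFDerivAt.comp 0 (h1.comp 0 hcd)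
  rw [hq'.fderiv] at key
  rw [injective_iff_map_eq_zero]
  intro v hv
  have hvH : v ∈ H := by
    rw [LinearMap.mem_ker]
    change m v = 0
    rw [hm]
    change l (L v) = 0
    rw [hv, map_zero]
  have h1 : (π ∘L (L ∘L H.subtypeL)) (⟨v, hvH⟩ : H) = (π ∘L (L ∘L H.subtypeL)) 0 := by
    rw [map_zero]
    change π (L v) = 0
    rw [hv, map_zero]
  exact congrArg Subtype.val (key h1)

end Pool.Agent.Lib.MP_465591_an
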