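import Pool.Agent.Lib.MP_465591_an.Spec

/-!
# Self-maps of the ball close to the identity are onto a smaller ball
-/

set_option autoImplicit false

open Metric Set Filter Topology

namespace Pool.Agent.Lib.MP_465591_an

theorem t_Sur (h1 : S_Near) : S_Sur := by
  intro ρ₀ hρ0 hρ1
  set ρ₁ : ℝ := (1 + ρ₀) / 2 with hρ₁
  have hρ₁pos : 0 < ρ₁ := by rw [hρ₁]; linarith
  have hρ₁lt : ρ₁ < 1 := by rw [hρ₁]; linarith
  have hρ01 : ρ₀ < ρ₁ := by rw [hρ₁]; linarith
  set q : ℝ := (1 - ρ₀) / 4 with hq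
  have hqpos : 0 < q := by rw [hq]; linarith
  set K : ℝ := (1 + ρ₁) / (1 - ρ₁) with hK
  have hKpos : 0 < K := by
    rw [hK]
    exact div_pos (by linarith) (by linarith)
  refine ⟨q ^ 2 / (2 * K), by positivity, ?_⟩
  intro n h τ hτ0 hτ hdiff hmaps hzero hder hopen
  have hsub : closedBall (0 : Cn n) ρ₁ ⊆ ball 0 1 := closedBall_subset_ball hρ₁lt
  have hcont : ContinuousOn h (closedBall (0 : Cn n) ρ₁) := hdiff.continuousOn.mono hsub
  have hcomp : IsCompact (h '' closedBall (0 : Cn n) ρ₁) :=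
    (isCompact_closedBall (0 : Cn n) ρ₁).image_of_continuousOn hcont
  have hU : IsOpen (h '' ball (0 : Cn n) ρ₁) :=
    hopen _ (ball_subset_ball hρ₁lt.le) isOpen_ball
  have hV : IsOpen (h '' closedBall (0 : Cn n) ρ₁)ᶜ := hcomp.isClosed.isOpen_compl
  have hbd : ∀ z : Cn n, ‖z‖ = ρ₁ → ρ₀ < ‖h z‖ := by
    intro z hz
    have hz1 : z ∈ ball (0 : Cn n) 1 := by
      rw [mem_ball_zero_iff, hz]; exact hρ₁lt
    have h2 := (h1 n h τ hτ0 hdiff hmaps hzero hder z hz1).2
    rw [hz] at h2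
    have h3 : 2 * τ * ((1 + ρ₁) / (1 - ρ₁)) ≤ q ^ 2 := by
      rw [← hK]
      have h4 : τ * (2 * K) ≤ q ^ 2 := by
        rwa [← le_div_iff₀ (by positivity)]
      nlinarith
    have h5 : ‖h z - z‖ ≤ q := by
      have := h2.trans h3
      exact (pow_le_pow_iff_left₀ (norm_nonneg _) hqpos.le two_ne_zero).mp this
    have h6 : ‖z‖ ≤ ‖h z‖ + ‖h z - z‖ := by
      have := norm_sub_le (h z) (h z - z)
      rwa [sub_sub_cancel] at this
    rw [hz] at h6
    rw [hρ₁] at h6
    rw [hq] at h5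
    linarith
  have hpre : IsPreconnected (closedBall (0 : Cn n) ρ₀) :=
    (convex_closedBall (0 : Cn n) ρ₀).isPreconnected
  have hdisj : Disjoint (h '' ball (0 : Cn n) ρ₁) (h '' closedBall (0 : Cn n) ρ₁)ᶜ := by
    rw [Set.disjoint_compl_right_iff_subset]
    exact Set.image_mono ball_subset_closedBall
  have hcover : closedBall (0 : Cn n) ρ₀ ⊆ h '' ball (0 : Cn n) ρ₁ ∪ (h '' closedBall (0 : Cn n) ρ₁)ᶜ := by
    intro w hw
    by_cases hw' : w ∈ h '' closedBall (0 : Cn n) ρ₁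
    · left
      obtain ⟨z, hz, rfl⟩ := hw'
      rcases (mem_closedBall_zero_iff.mp hz).lt_or_eq with hlt | heq
      · exact ⟨z, mem_ball_zero_iff.mpr hlt, rfl⟩
      · exfalso
        have := hbd z heq
        rw [mem_closedBall_zero_iff] at hw
        linarith
    · right
      exact hw'
  have hmeet : (closedBall (0 : Cn n) ρ₀ ∩ h '' ball (0 : Cn n) ρ₁).Nonempty :=
    ⟨0, mem_closedBall_self hρ0, 0, mem_ball_self hρ₁pos, hzero⟩
  have hres := hpre.subset_left_of_subset_union hU hV hdisj hcover hmeet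
  exact hres.trans (Set.image_mono (ball_subset_ball hρ₁lt.le))

end Pool.Agent.Lib.MP_465591_an
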