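import Pool.Agent.Lib.MP_465591_an.Spec

/-!
# MP_465591_an: the transition maps of a Loewner chain
-/

set_option autoImplicit false

open Metric Set Filter Topology

namespace Pool.Agent.Lib.MP_465591_an

theorem t_Tr (h1 : S_Inv) : S_Tr := by
  intro n L hL s t hs hst
  have ht : 0 ≤ t := hs.trans hst
  have hB : IsOpen (ball (0 : Cn n) 1) := isOpen_ball
  have h0 : (0 : Cn n) ∈ ball (0 : Cn n) 1 := mem_ball_self one_pos
  obtain ⟨-, g, hgd, hg⟩ := h1 n (L t) (ball 0 1) hB (hL.diff t ht) (hL.inj t ht)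
  obtain ⟨hos, -⟩ := h1 n (L s) (ball 0 1) hB (hL.diff s hs) (hL.inj s hs)
  have hsub := hL.mono s t hs hst
  -- the basic properties
  have hkey : ∀ z ∈ ball (0 : Cn n) 1, g (L s z) ∈ ball (0 : Cn n) 1 ∧ L t (g (L s z)) = L s z := by
    intro z hz
    obtain ⟨w, hw, hwz⟩ := hsub ⟨z, hz, rfl⟩
    rw [← hwz, hg w hw]
    exact ⟨hw, rfl⟩
  have hdiff : DifferentiableOn ℂ (fun z => g (L s z)) (ball 0 1) :=
    hgd.comp (hL.diff s hs) fun z hz => hsub ⟨z, hz, rfl⟩
  have hzero : g (L s 0) = 0 := by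
    rw [hL.zero s hs]
    conv_lhs => rw [← hL.zero t ht]
    exact hg 0 h0
  refine ⟨fun z => g (L s z), hdiff, fun z hz => (hkey z hz).1, hzero, ?_, ?_,
    fun z hz => (hkey z hz).2⟩
  · -- the derivative
    have hd1 : DifferentiableAt ℂ (fun z => g (L s z)) 0 :=
      (hdiff 0 h0).differentiableAt (hB.mem_nhds h0)
    have hd2 : DifferentiableAt ℂ (L t) ((fun z => g (L s z)) 0) := by
      change DifferentiableAt ℂ (L t) (g (L s 0))
      rw [hzero]
      exact (hL.diff t ht 0 h0).differentiableAt (hB.mem_nhds h0)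
    have hcomp := fderiv_comp (0 : Cn n) hd2 hd1
    have heq : (L t ∘ fun z => g (L s z)) =ᶠ[𝓝 0] L s := by
      filter_upwards [hB.mem_nhds h0] with z hz
      exact (hkey z hz).2
    rw [heq.fderiv_eq, hL.der s hs] at hcomp
    have e1 : fderiv ℂ (L t) ((fun z => g (L s z)) 0) =
        (Complex.ofReal (Real.exp t)) • ContinuousLinearMap.id ℂ (Cn n) := by
      change fderiv ℂ (L t) (g (L s 0)) = _
      rw [hzero, hL.der t ht]
    rw [e1] at hcomp
    refine ContinuousLinearMap.ext fun x => ?_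
    have h2 := congrArg (fun A : Cn n →L[ℂ] Cn n => A x) hcomp
    have h3 : (Complex.ofReal (Real.exp s)) • x =
        (Complex.ofReal (Real.exp t)) • (fderiv ℂ (fun z => g (L s z)) 0 x) := h2
    change fderiv ℂ (fun z => g (L s z)) 0 x = (Complex.ofReal (Real.exp (-(t - s)))) • x
    have h4 : (Complex.ofReal (Real.exp t)) ≠ 0 :=
      Complex.ofReal_ne_zero.2 (Real.exp_ne_zero t)
    have h5 : (Complex.ofReal (Real.exp (-(t - s)))) =
        (Complex.ofReal (Real.exp t))⁻¹ * Complex.ofReal (Real.exp s) := by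
      rw [← Complex.ofReal_inv, ← Complex.ofReal_mul, ← Real.exp_neg, ← Real.exp_add]
      congr 2
      ring
    rw [h5, mul_smul, h3, inv_smul_smul₀ h4]
  · intro W hW hWo
    have h2 : (fun z => g (L s z)) '' W = ball 0 1 ∩ L t ⁻¹' (L s '' W) := by
      ext x
      constructor
      · rintro ⟨z, hz, rfl⟩
        exact ⟨(hkey z (hW hz)).1, z, hz, ((hkey z (hW hz)).2).symm⟩
      · rintro ⟨hx, w, hw, hwx⟩
        refine ⟨w, hw, ?_⟩
        refine hL.inj t ht (hkey w (hW hw)).1 hx ?_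
        rw [← hwx]
        exact (hkey w (hW hw)).2
    rw [h2]
    exact (hL.diff t ht).continuousOn.isOpen_inter_preimage hB (hos W hW hWo)

end Pool.Agent.Lib.MP_465591_an
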