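import Mathlib
import Pool.Agent.Lib.Osgood

/-!
# Curves in the zero set of a holomorphic function of two variables
-/

set_option autoImplicit false

open Filter Topology Metric Set

namespace Pool.Agent.Lib.MP_465591_an

/-- the derivative in the direction of the second variable -/
noncomputable def dy (G : ℂ × ℂ → ℂ) : ℂ × ℂ → ℂ := fun p => fderiv ℂ G p (0, 1)

theorem dy_diff {G : ℂ × ℂ → ℂ} {N : Set (ℂ × ℂ)} (hN : IsOpen N) (hG : DifferentiableOn ℂ G N) :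
    DifferentiableOn ℂ (dy G) N := fun p hp =>
  ((Osgood.differentiableOn_fderiv hN hG) p hp).clm_apply (differentiableWithinAt_const _)

theorem dy_iter_diff {G : ℂ × ℂ → ℂ} {N : Set (ℂ × ℂ)} (hN : IsOpen N)
    (hG : DifferentiableOn ℂ G N) (k : ℕ) : DifferentiableOn ℂ (dy^[k] G) N := by
  induction k with
  | zero => exact hG
  | succ k ih =>
    rw [Function.iterate_succ_apply']
    exact dy_diff hN ih

theorem dy_hasDerivAt {G : ℂ × ℂ → ℂ} {x y : ℂ} (hG : DifferentiableAt ℂ G (x, y)) :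
    HasDerivAt (fun t => G (x, t)) (dy G (x, y)) y := by
  have h1 : HasDerivAt (fun t : ℂ => (x, t)) ((0 : ℂ), (1 : ℂ)) y :=
    (hasDerivAt_const y x).prodMk (hasDerivAt_id y)
  exact hG.hasFDerivAt.comp_hasDerivAt y h1

theorem iteratedDeriv_eq {G : ℂ × ℂ → ℂ} {N : Set (ℂ × ℂ)} (hN : IsOpen N)
    (hG : DifferentiableOn ℂ G N) (x : ℂ) (k : ℕ) : ∀ y, (x, y) ∈ N →
    iteratedDeriv k (fun t => G (x, t)) y = dy^[k] G (x, y) := by
  induction k with
  | zero => intro y _; simp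
  | succ k ih =>
    intro y hy
    rw [iteratedDeriv_succ, Function.iterate_succ_apply']
    have hev : iteratedDeriv k (fun t => G (x, t)) =ᶠ[𝓝 y] fun t => dy^[k] G (x, t) := by
      have hopen : IsOpen {t : ℂ | (x, t) ∈ N} := hN.preimage (by fun_prop)
      filter_upwards [hopen.mem_nhds hy] with t ht
      exact ih t ht
    rw [hev.deriv_eq]
    exact (dy_hasDerivAt ((dy_iter_diff hN hG k _ hy).differentiableAt (hN.mem_nhds hy))).deriv

/-- a zero of the function where it does not vanish along the vertical line: some derivative is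
different from `0` -/
theorem exists_iter_ne {G : ℂ × ℂ → ℂ} {N : Set (ℂ × ℂ)} (hN : IsOpen N)
    (hG : DifferentiableOn ℂ G N) {x y : ℂ} (hp : (x, y) ∈ N)
    (h0 : ¬ ∀ᶠ t in 𝓝 y, G (x, t) = 0) : ∃ k, dy^[k] G (x, y) ≠ 0 := by
  by_contra hk
  push Not at hk
  apply h0
  have ha : AnalyticAt ℂ (fun t => G (x, t)) y := by
    have h1 := Osgood.analyticOnNhd hN hG (x, y) hp
    exact h1.comp₂ analyticAt_const analyticAt_id
  rw [← analyticOrderAt_eq_top]
  by_contra ht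
  obtain ⟨n, hn⟩ := ENat.ne_top_iff_exists.1 ht
  have h1 := (natCast_le_analyticOrderAt_iff_iteratedDeriv_eq_zero ha (n := n + 1)).2 (by
    intro i _
    rw [iteratedDeriv_eq hN hG x i y hp]
    exact hk i)
  rw [← hn] at h1
  have h2 : n + 1 ≤ n := by exact_mod_cast h1
  omega

/-- Hurwitz: nearby vertical lines meet the zero set -/
theorem hurwitz {G : ℂ × ℂ → ℂ} {N : Set (ℂ × ℂ)} (hN : IsOpen N) (hG : DifferentiableOn ℂ G N)
    {x₀ y₀ : ℂ} (hp : (x₀, y₀) ∈ N) (hz : G (x₀, y₀) = 0) (h0 : ¬ ∀ᶠ t in 𝓝 y₀, G (x₀, t) = 0)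
    {W : Set (ℂ × ℂ)} (hW : W ∈ 𝓝 (x₀, y₀)) :
    ∀ᶠ x in 𝓝 x₀, ∃ y, (x, y) ∈ W ∧ G (x, y) = 0 := by
  have ha : AnalyticAt ℂ (fun t => G (x₀, t)) y₀ := by
    have h1 := Osgood.analyticOnNhd hN hG (x₀, y₀) hp
    exact h1.comp₂ analyticAt_const analyticAt_id
  have hne : ∀ᶠ t in 𝓝[≠] y₀, G (x₀, t) ≠ 0 := by
    rcases ha.eventually_eq_zero_or_eventually_ne_zero with h | h
    · exact absurd h h0
    · exact h
  have hWN : W ∩ N ∈ 𝓝 (x₀, y₀) := inter_mem hW (hN.mem_nhds hp)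
  obtain ⟨ε₁, hε₁, hball⟩ := Metric.mem_nhds_iff.1 hWN
  rw [eventually_nhdsWithin_iff] at hne
  obtain ⟨ε₂, hε₂, hne2⟩ := Metric.eventually_nhds_iff.1 hne
  set ε : ℝ := min ε₁ ε₂ / 2 with hεd
  have hmin : 0 < min ε₁ ε₂ := lt_min hε₁ hε₂
  have hε : 0 < ε := by positivity
  have hεε₁ : ε < ε₁ := by
    have := min_le_left ε₁ ε₂
    rw [hεd]; linarith
  have hεε₂ : ε < ε₂ := by
    have := min_le_right ε₁ ε₂
    rw [hεd]; linarith
  have hmem : ∀ x t, dist x x₀ < ε₁ → dist t y₀ ≤ ε → (x, t) ∈ W ∩ N := by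
    intro x t hx ht
    apply hball
    rw [Metric.mem_ball, Prod.dist_eq]
    exact max_lt hx (lt_of_le_of_lt ht hεε₁)
  -- the circle
  have hCcpt : IsCompact (sphere y₀ ε) := isCompact_sphere y₀ ε
  have hCne : (sphere y₀ ε).Nonempty := NormedSpace.sphere_nonempty.2 hε.le
  have hcont0 : ContinuousOn (fun t => ‖G (x₀, t)‖) (sphere y₀ ε) := by
    intro t ht
    have h1 : (x₀, t) ∈ W ∩ N := hmem x₀ t (by simpa using hε₁) (le_of_eq ht)
    have h2 : ContinuousAt G (x₀, t) :=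
      ((hG _ h1.2).differentiableAt (hN.mem_nhds h1.2)).continuousAt
    have h3 : ContinuousAt (fun t : ℂ => (x₀, t)) t := by fun_prop
    exact (ContinuousAt.norm (h2.comp_of_eq h3 rfl)).continuousWithinAt
  obtain ⟨t₁, ht₁, hmin₁⟩ := hCcpt.exists_isMinOn hCne hcont0
  set c : ℝ := ‖G (x₀, t₁)‖ / 2 with hc
  have ht₁ne : t₁ ≠ y₀ := by
    intro h
    rw [h, mem_sphere, dist_self] at ht₁
    linarith
  have hG1 : 0 < ‖G (x₀, t₁)‖ := by
    rw [norm_pos_iff]
    apply hne2 _ ht₁ne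
    rw [mem_sphere] at ht₁
    rw [ht₁]; exact hεε₂
  have hcpos : 0 < c := by positivity
  have hopen : IsOpen (N ∩ (fun p => ‖G p‖) ⁻¹' Ioi c) :=
    hG.continuousOn.norm.isOpen_inter_preimage hN isOpen_Ioi
  have hsub : ({x₀} : Set ℂ) ×ˢ sphere y₀ ε ⊆ N ∩ (fun p => ‖G p‖) ⁻¹' Ioi c := by
    rintro ⟨x, t⟩ ⟨hx, ht⟩
    rw [mem_singleton_iff] at hx
    simp only at hx ht
    subst hx
    refine ⟨(hmem x t (by simpa using hε₁) (le_of_eq ht)).2, ?_⟩
    have h1 : ‖G (x, t₁)‖ ≤ ‖G (x, t)‖ := hmin₁ ht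
    show c < ‖G (x, t)‖
    rw [hc]; linarith
  obtain ⟨u, v, hu, hv, hxu, hsv, huv⟩ :=
    generalized_tube_lemma isCompact_singleton hCcpt hopen hsub
  have hu0 : u ∈ 𝓝 x₀ := hu.mem_nhds (hxu rfl)
  have hcy : ∀ᶠ x in 𝓝 x₀, ‖G (x, y₀)‖ < c := by
    have h2 : ContinuousAt G (x₀, y₀) :=
      ((hG _ hp).differentiableAt (hN.mem_nhds hp)).continuousAt
    have h3 : ContinuousAt (fun x : ℂ => (x, y₀)) x₀ := by fun_prop
    have h4 : ContinuousAt (fun x => ‖G (x, y₀)‖) x₀ := ContinuousAt.norm (h2.comp_of_eq h3 rfl)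
    have h5 : (fun x => ‖G (x, y₀)‖) x₀ < c := by
      simp only [hz, norm_zero]; exact hcpos
    exact h4.eventually_lt continuousAt_const h5
  filter_upwards [hu0, hcy, Metric.ball_mem_nhds x₀ hε₁] with x hxu' hxc hxb
  by_contra hno
  push Not at hno
  have hnz : ∀ t, dist t y₀ ≤ ε → G (x, t) ≠ 0 := fun t ht => hno t (hmem x t hxb ht).1
  have hdiff : ∀ t, dist t y₀ ≤ ε → DifferentiableAt ℂ (fun t => (G (x, t))⁻¹) t := by
    intro t ht
    have h1 := (hmem x t hxb ht).2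
    exact (dy_hasDerivAt ((hG _ h1).differentiableAt (hN.mem_nhds h1))).differentiableAt.inv
      (hnz t ht)
  have hdc : DiffContOnCl ℂ (fun t => (G (x, t))⁻¹) (ball y₀ ε) := by
    apply DifferentiableOn.diffContOnCl
    intro t ht
    exact (hdiff t (by
      have := closure_ball_subset_closedBall ht
      simpa using this)).differentiableWithinAt
  have hbd : ∀ t ∈ frontier (ball y₀ ε), ‖(G (x, t))⁻¹‖ ≤ c⁻¹ := by
    intro t ht
    rw [frontier_ball y₀ hε.ne'] at ht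
    have h1 : (x, t) ∈ N ∩ (fun p => ‖G p‖) ⁻¹' Ioi c := huv ⟨hxu', hsv ht⟩
    have h2 : c < ‖G (x, t)‖ := h1.2
    rw [norm_inv]
    exact inv_anti₀ hcpos h2.le
  have h6 := Complex.norm_le_of_forall_mem_frontier_norm_le isBounded_ball hdc hbd
    (subset_closure (mem_ball_self hε))
  rw [norm_inv] at h6
  have h7 : 0 < ‖G (x, y₀)‖ := norm_pos_iff.2 (hnz y₀ (by simpa using hε.le))
  have h8 := (inv_le_inv₀ h7 hcpos).1 h6
  linarith

end Pool.Agent.Lib.MP_465591_an
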