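import Pool.Agent.Lib.MP_465591_an.Spec
import Pool.Agent.Lib.MP_465591_an.ZeroCurve

/-!
# MP_465591_an: curves in the zero set (ZC)
-/

set_option autoImplicit false

open Filter Topology Metric Set

namespace Pool.Agent.Lib.MP_465591_an

namespace ZCAux

theorem isInvertible_of_ne {f : ℂ →L[ℂ] ℂ} (h : f 1 ≠ 0) : f.IsInvertible := by
  refine ⟨ContinuousLinearEquiv.unitsEquivAut ℂ (Units.mk0 (f 1) h), ?_⟩
  ext
  simp

end ZCAux

theorem t_ZC : S_ZC := by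
  intro P N hN hP hz hnz
  classical
  have hex : ∃ k, ∃ p ∈ N, P p = 0 ∧ dy^[k] P p ≠ 0 := by
    obtain ⟨p, hp, hp0⟩ := hz
    obtain ⟨k, hk⟩ := exists_iter_ne hN hP (x := p.1) (y := p.2) hp (hnz p.1 p.2 hp hp0)
    exact ⟨k, p, hp, hp0, hk⟩
  obtain ⟨m, hm⟩ : ∃ m, m = Nat.find hex := ⟨_, rfl⟩
  obtain ⟨p₀, hp₀, hp₀0, hder⟩ := Nat.find_spec hex
  rw [← hm] at hder
  have hmin : ∀ k < m, ∀ p ∈ N, P p = 0 → dy^[k] P p = 0 := by
    intro k hk p hp hp0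
    by_contra hc
    rw [hm] at hk
    exact Nat.find_min hex hk ⟨p, hp, hp0, hc⟩
  obtain ⟨l, rfl⟩ : ∃ l, m = l + 1 := by
    rcases m with _ | l
    · exact absurd hp₀0 hder
    · exact ⟨l, rfl⟩
  obtain ⟨x₀, y₀⟩ := p₀
  set e : ℂ × ℂ → ℂ := dy^[l] P with he
  have he0 : ∀ p ∈ N, P p = 0 → e p = 0 := hmin l (Nat.lt_succ_self l)
  have hde : fderiv ℂ e (x₀, y₀) (0, 1) ≠ 0 := by
    rw [Function.iterate_succ_apply'] at hder
    exact hder
  have hediff : DifferentiableOn ℂ e N := dy_iter_diff hN hP l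
  have hcd : ContDiffAt ℂ 1 e (x₀, y₀) := (Osgood.analyticOnNhd hN hediff _ hp₀).contDiffAt
  have hinv : (fderiv ℂ e (x₀, y₀) ∘L .inr ℂ ℂ ℂ).IsInvertible := by
    apply ZCAux.isInvertible_of_ne
    simpa using hde
  have hY := hcd.contDiffAt_implicitFunction one_ne_zero hinv
  have hiff := hcd.eventually_apply_eq_iff_implicitFunction one_ne_zero hinv
  set Y := hcd.implicitFunction one_ne_zero hinv
  refine ⟨x₀, Y, ?_⟩
  have hW := hurwitz hN hP hp₀ hp₀0 (hnz x₀ y₀ hp₀ hp₀0) (inter_mem hiff (hN.mem_nhds hp₀))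
  have hY2 : ∀ᶠ x in 𝓝 x₀, ContDiffAt ℂ 1 Y x := hY.eventually (by simp)
  filter_upwards [hW, hY2] with x ⟨y, ⟨hy1, hy2⟩, hy3⟩ hx
  have h1 : Y x = y := by
    apply hy1.1
    rw [he0 _ hy2 hy3, he0 _ hp₀ hp₀0]
  refine ⟨hx.differentiableAt one_ne_zero, ?_, ?_⟩
  · rw [h1]; exact hy2
  · rw [h1]; exact hy3

end Pool.Agent.Lib.MP_465591_an
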