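import Pool.Agent.Lib.MP_465591_an.Spec

/-!
# MP_465591_an: Runge images of the ball
-/

set_option autoImplicit false

open Metric Set Filter Topology

namespace Pool.Agent.Lib.MP_465591_an

namespace NRAux

/-- Polynomials are entire functions. -/
theorem diff_eval {n : ℕ} (P : MvPolynomial (Fin n) ℂ) :
    Differentiable ℂ fun z : Cn n => MvPolynomial.eval (fun i => z i) P := by
  induction P using MvPolynomial.induction_on with
  | C a =>
    simp only [MvPolynomial.eval_C]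
    exact differentiable_const a
  | add p q hp hq =>
    simp only [map_add]
    exact hp.add hq
  | mul_X p i hp =>
    simp only [map_mul, MvPolynomial.eval_X]
    exact hp.mul (differentiable_euclidean.1 differentiable_id i)

/-- The norm is at most `n + 1` times a bound of the coordinates. -/
theorem norm_le_of {n : ℕ} (v : Cn n) (ε : ℝ) (hε : 0 ≤ ε) (h : ∀ i, ‖v i‖ ≤ ε) :
    ‖v‖ ≤ (n + 1) * ε := by
  have h1 : ‖v‖ ^ 2 ≤ ((n + 1) * ε) ^ 2 := by
    rw [EuclideanSpace.norm_sq_eq]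
    calc ∑ i, ‖v i‖ ^ 2 ≤ ∑ _i : Fin n, ε ^ 2 :=
          Finset.sum_le_sum fun i _ => pow_le_pow_left₀ (norm_nonneg _) (h i) 2
      _ = n * ε ^ 2 := by
          rw [Finset.sum_const, Finset.card_univ, Fintype.card_fin, nsmul_eq_mul]
      _ ≤ ((n + 1) * ε) ^ 2 := by
          rw [mul_pow]
          refine mul_le_mul_of_nonneg_right ?_ (sq_nonneg ε)
          have : (0 : ℝ) ≤ n := Nat.cast_nonneg n
          nlinarith
  have h2 : 0 ≤ (n + 1) * ε := by positivity
  exact le_of_sq_le_sq' h1 h2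
where
  le_of_sq_le_sq' {a b : ℝ} (h : a ^ 2 ≤ b ^ 2) (hb : 0 ≤ b) : a ≤ b := by
    nlinarith [sq_nonneg (a - b), sq_nonneg (a + b)]

/-- Approximation of vector valued maps. -/
theorem approx {n : ℕ} {Ω : Set (Cn n)} (hR : Runge n Ω) {g : Cn n → Cn n}
    (hg : DifferentiableOn ℂ g Ω) {K : Set (Cn n)} (hK : K ⊆ Ω) (hKc : IsCompact K) (δ : ℝ)
    (hδ : 0 < δ) : ∃ Q : Cn n → Cn n, Differentiable ℂ Q ∧ ∀ z ∈ K, ‖g z - Q z‖ ≤ δ := by
  have hn : (0 : ℝ) < n + 1 := by positivity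
  have h1 : ∀ i : Fin n, ∃ P : MvPolynomial (Fin n) ℂ, ∀ z ∈ K,
      ‖g z i - MvPolynomial.eval (fun i => z i) P‖ ≤ δ / (n + 1) := fun i =>
    hR (fun z => g z i) (differentiableOn_euclidean.1 hg i) K hK hKc _ (by positivity)
  choose P hP using h1
  refine ⟨fun z => WithLp.toLp 2 fun i => MvPolynomial.eval (fun i => z i) (P i), ?_, ?_⟩
  · rw [differentiable_euclidean]
    intro i
    exact diff_eval (P i)
  · intro z hz
    have h2 := norm_le_of (g z - WithLp.toLp 2 fun i => MvPolynomial.eval (fun i => z i) (P i))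
      (δ / (n + 1)) (by positivity) fun i => hP i z hz
    rwa [mul_div_cancel₀ _ hn.ne'] at h2

end NRAux

open NRAux in
/-- Runge images of the ball contain the discs whose boundary circles they contain. -/
theorem t_NR (h1 : S_Inv) : S_NR := by
  intro n f hf hinj R e hR hcirc hRunge x hx
  obtain ⟨hop, g, hg, hgf⟩ := h1 n f (ball 0 1) isOpen_ball hf hinj
  have hΩ : IsOpen (f '' ball 0 1) := hop _ Subset.rfl isOpen_ball
  have hfg : ∀ y ∈ f '' ball (0 : Cn n) 1, g y ∈ ball (0 : Cn n) 1 ∧ f (g y) = y := by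
    rintro y ⟨z, hz, rfl⟩
    rw [hgf z hz]
    exact ⟨hz, rfl⟩
  -- the circle
  have hsm : Continuous fun x : ℂ => x • e := continuous_id.smul continuous_const
  have hCc : IsCompact ((fun x : ℂ => x • e) '' sphere (0 : ℂ) R) :=
    (isCompact_sphere 0 R).image hsm
  have hCsub : (fun x : ℂ => x • e) '' sphere (0 : ℂ) R ⊆ f '' ball 0 1 := by
    rintro _ ⟨y, hy, rfl⟩
    exact hcirc y (by rwa [mem_sphere_zero_iff_norm] at hy)
  have hRs : (R : ℂ) ∈ sphere (0 : ℂ) R := by
    rw [mem_sphere_zero_iff_norm, Complex.norm_real, Real.norm_eq_abs, abs_of_pos hR]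
  have hCne : ((fun x : ℂ => x • e) '' sphere (0 : ℂ) R).Nonempty := ⟨_, (R : ℂ), hRs, rfl⟩
  obtain ⟨y0, hy0, hmax⟩ := hCc.exists_isMaxOn hCne (hg.continuousOn.mono hCsub).norm
  have hρ1 : ‖g y0‖ < 1 := by
    have := (hfg y0 (hCsub hy0)).1
    rwa [mem_ball_zero_iff] at this
  have hmax' : ∀ y ∈ (fun x : ℂ => x • e) '' sphere (0 : ℂ) R, ‖g y‖ ≤ ‖g y0‖ := fun y hy =>
    hmax hy
  -- the bound inside
  have hbound : ∀ y : ℂ, ‖y‖ ≤ R → y • e ∈ f '' ball 0 1 → ‖g (y • e)‖ ≤ ‖g y0‖ := by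
    intro y hy hyΩ
    refine le_of_forall_pos_le_add fun η hη => ?_
    obtain ⟨Q, hQ, hQK⟩ := approx hRunge hg
      (K := (fun x : ℂ => x • e) '' sphere (0 : ℂ) R ∪ {y • e})
      (union_subset hCsub (singleton_subset_iff.2 hyΩ)) (hCc.union isCompact_singleton)
      (η / 2) (by positivity)
    have hse : Differentiable ℂ fun x : ℂ => x • e := by fun_prop
    have hq : Differentiable ℂ fun x : ℂ => Q (x • e) := hQ.comp hse
    have hqs : ∀ x ∈ sphere (0 : ℂ) R, ‖Q (x • e)‖ ≤ ‖g y0‖ + η / 2 := by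
      intro x hx
      have h3 := hQK (x • e) (Or.inl ⟨x, hx, rfl⟩)
      have h4 := hmax' (x • e) ⟨x, hx, rfl⟩
      have h5 : ‖Q (x • e)‖ ≤ ‖g (x • e)‖ + ‖g (x • e) - Q (x • e)‖ := by
        have := norm_sub_norm_le (Q (x • e)) (g (x • e))
        rw [norm_sub_rev] at this
        linarith
      linarith
    have hqy : ‖Q (y • e)‖ ≤ ‖g y0‖ + η / 2 := by
      have h6 := Complex.norm_le_of_forall_mem_frontier_norm_le (isBounded_ball (x := (0 : ℂ)) (r := R))
        (hq.diffContOnCl) (C := ‖g y0‖ + η / 2) (fun z hz => hqs z (by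
          rwa [frontier_ball (0 : ℂ) hR.ne'] at hz))
        (z := y) (by
          rw [closure_ball (0 : ℂ) hR.ne', mem_closedBall_zero_iff]
          exact hy)
      exact h6
    have h7 := hQK (y • e) (Or.inr rfl)
    have h8 : ‖g (y • e)‖ ≤ ‖Q (y • e)‖ + ‖g (y • e) - Q (y • e)‖ := by
      have := norm_sub_norm_le (g (y • e)) (Q (y • e))
      linarith
    linarith
  -- the compact set
  have hcb : closedBall (0 : Cn n) ‖g y0‖ ⊆ ball 0 1 := closedBall_subset_ball hρ1
  have hKc : IsCompact (f '' closedBall (0 : Cn n) ‖g y0‖) :=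
    (isCompact_closedBall _ _).image_of_continuousOn (hf.continuousOn.mono hcb)
  by_contra hxn
  have hU : IsOpen {y : ℂ | y • e ∈ f '' ball (0 : Cn n) 1} := hΩ.preimage hsm
  have hV : IsOpen {y : ℂ | y • e ∉ f '' closedBall (0 : Cn n) ‖g y0‖} :=
    hKc.isClosed.isOpen_compl.preimage hsm
  have hpre : IsPreconnected (closedBall (0 : ℂ) R) := (convex_closedBall 0 R).isPreconnected
  obtain ⟨y, hyR, hyU, hyV⟩ := hpre _ _ hU hV (by
      intro y _
      by_cases h : y • e ∈ f '' closedBall (0 : Cn n) ‖g y0‖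
      · exact Or.inl (image_mono hcb h)
      · exact Or.inr h)
    ⟨(R : ℂ), sphere_subset_closedBall hRs, hCsub ⟨_, hRs, rfl⟩⟩
    ⟨x, by rwa [mem_closedBall_zero_iff], fun h => hxn (image_mono hcb h)⟩
  refine hyV ⟨g (y • e), ?_, (hfg _ hyU).2⟩
  rw [mem_closedBall_zero_iff]
  exact hbound y (by rwa [mem_closedBall_zero_iff] at hyR) hyU

end Pool.Agent.Lib.MP_465591_an
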