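import Pool.Agent.Lib.MP_465591_an.Defs

/-!
# MP_465591_an: statements of the modules, with complete proofs

THEOREM.  For all `n = k + 2 ≥ 2` and all `r > 1` the map `F = FF k (AA r)` is in `S(r 𝔹ⁿ)` and commutes
with the circle group `rot k u`; for every normalized Loewner chain `L` with `L 0 = F` on `𝔹ⁿ` and all
`t` the circle `|x| = 2 r²` of the first axis is in `L t (𝔹ⁿ)`, the disc `|x| ≤ 2 r²` is not, `L t (𝔹ⁿ)`
is not Runge, and `L` does not commute with the circle group.  Paper proof: note 3764.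

Every statement `S_X` is proved in the file `X.lean` as `theorem t_X : S_X`, or
`theorem t_X (h1 : S_Y) (h2 : S_Z) … : S_X` if the docstring says `uses S_Y, S_Z, …` (in this order).
Auxiliary lemmas private or in a namespace `XAux`.  Holomorphic functions are analytic:
`Osgood.analyticOnNhd` and `Osgood.differentiableOn_fderiv` in `Pool/Agent/Lib/Osgood.lean`.
-/

set_option autoImplicit false

open Metric Set Filter Topology

namespace Pool.Agent.Lib.MP_465591_an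

/-! ## Part O: injective holomorphic maps are biholomorphic (Osgood) -/

/-- Osgood's theorem in dimension `n`. -/
def OS (n : ℕ) : Prop :=
  ∀ (E F : Type) [NormedAddCommGroup E] [NormedSpace ℂ E] [NormedAddCommGroup F] [NormedSpace ℂ F]
    [FiniteDimensional ℂ E] [FiniteDimensional ℂ F], Module.finrank ℂ E = n →
    Module.finrank ℂ F = n → ∀ (U : Set E) (f : E → F) (a : E), IsOpen U → DifferentiableOn ℂ f U →
    InjOn f U → a ∈ U → Function.Injective (fderiv ℂ f a)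

/-- **One** (50 lines).  Dimension one.

PROOF.  `v` spans `E` (`finrank_eq_one_iff'`), `e : F ≃L[ℂ] ℂ` (`ContinuousLinearEquiv.ofFinrankEq`).
`g s = e (f (a + s • v))` is analytic at `0` and injective near `0`, so `deriv g 0 ≠ 0` by
`Pool.MP_31392c_an.StarInv.deriv_ne` (import `Pool.Agent.Lib.MP_31392c_an.Full.StarInv`; or copy its
proof), and `deriv g 0 = e (fderiv ℂ f a v)`.  If `fderiv ℂ f a x = 0`, `x = c • v`, then `c = 0`. -/
def S_One : Prop := OS 1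

/-- **ZC** (helper7; reserved).  Curves in the zero set.

PROOF.  `dy P (x,y) = ∂P/∂y`.  For a zero `p ∈ N` some iterated derivative `dy^[j] P p ≠ 0`.  Take a zero
`p₀` with the smallest such `j = m` (`m ≥ 1`), `e = dy^[m-1] P`: `e = 0` at all zeros of `P` in `N`,
`dy e p₀ ≠ 0`; implicit function `Y` of `e = 0`; for `x` near `x₀` `P (x, ·)` has a zero near `y₀`
(Hurwitz), which is `Y x`. -/
def S_ZC : Prop :=
  ∀ (P : ℂ × ℂ → ℂ) (N : Set (ℂ × ℂ)), IsOpen N → DifferentiableOn ℂ P N → (∃ p ∈ N, P p = 0) →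
    (∀ x y, (x, y) ∈ N → P (x, y) = 0 → ¬ ∀ᶠ t in 𝓝 y, P (x, t) = 0) →
    ∃ (x₀ : ℂ) (Y : ℂ → ℂ), ∀ᶠ x in 𝓝 x₀, DifferentiableAt ℂ Y x ∧ (x, Y x) ∈ N ∧ P (x, Y x) = 0

/-- **Red** (120 lines).  If the derivative is not `0` the theorem in dimension `n` applies to a
hypersurface.

PROOF.  `L = fderiv ℂ f a ≠ 0`; let `L w ≠ 0` and `ℓ : F →L[ℂ] ℂ` with `ℓ (L w) = 1` (a functional with
`ℓ (L w) ≠ 0`, scaled; `SeparatingDual` or `exists_dual_vector`).  `H = ker (ℓ ∘ L) ⊆ E`,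
`K = ker ℓ ⊆ F`, both of dimension `n` (kernel of a nonzero functional:
`LinearMap.finrank_range_add_finrank_ker`).  `G : H × ℂ → ℂ`, `G (h, s) = ℓ (f (a + h + s • w))`, is
`ContDiffAt ℂ 1` at `0` (`f` is analytic at `a`), its derivative in `s` at `0` is `ℓ (L w) = 1`.  Let
`ψ = ContDiffAt.implicitFunction` (`Mathlib.Analysis.Calculus.ImplicitContDiff`): `ψ 0 = 0`,
`G (h, ψ h) = ℓ (f a)` for `h` near `0`, `ψ` is `ContDiffAt ℂ 1` at `0`, so differentiable in a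
neighbourhood (`ContDiffAt.eventually`, finite order).  `π : F →L[ℂ] K`, `π y = y - ℓ y • L w`.
`q h = π (f (a + h + ψ h • w))` is differentiable on a ball `B` around `0` in `H` and injective there
(if it is small): `q h = q h'` gives `f (..) = f (..)` as the values of `ℓ` agree, so
`h + ψ h • w = h' + ψ h' • w`; apply `ℓ ∘ L`: `ψ h = ψ h'`, `h = h'`.  By `OS n` `fderiv ℂ q 0` is
injective.  Differentiating `G (h, ψ h) = const`: `ℓ (L x) + ψ'(0) x = 0`, so `ψ'(0) = 0` on `H`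
and `q'(0) x = π (L x)`.  If `L v = 0` then `v ∈ H` and `q'(0) v = 0`, so `v = 0`. -/
def S_Red : Prop :=
  ∀ n : ℕ, OS n → ∀ (E F : Type) [NormedAddCommGroup E] [NormedSpace ℂ E] [NormedAddCommGroup F]
    [NormedSpace ℂ F] [FiniteDimensional ℂ E] [FiniteDimensional ℂ F], Module.finrank ℂ E = n + 1 →
    Module.finrank ℂ F = n + 1 → ∀ (U : Set E) (f : E → F) (a : E), IsOpen U →
    DifferentiableOn ℂ f U → InjOn f U → a ∈ U → fderiv ℂ f a ≠ 0 →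
    Function.Injective (fderiv ℂ f a)

/-- **Osg** (110 lines; uses `S_One`, `S_ZC`, `S_Red`).  Osgood's theorem.

PROOF.  Induction on `n`; `n = 0`: `E` is a point; `n = 1`: `S_One`.  Dimension `n + 1`, `n ≥ 1`: by
`S_Red` for every `z ∈ U` `fderiv ℂ f z` is injective or `0`.  Suppose it is not injective at `a`, so
`fderiv ℂ f a = 0`.  `e : F ≃L[ℂ] E` (same finrank), `d z = det (e ∘ fderiv ℂ f z)`
(`LinearMap.det` or `ContinuousLinearMap.det`), differentiable on `U` (`Osgood.differentiableOn_fderiv`,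
`ContinuousLinearMap.det` is a polynomial in the entries, see `Pool/Agent/Lib/KV/C/HurN.lean`);
`d z = 0` iff not injective iff `fderiv ℂ f z = 0`.  Let `e₁, e₂` be linearly independent
(`exists_linearIndependent_pair_of_one_lt_finrank`), `ι (x, y) = a + x • e₁ + y • e₂`, `N = ι⁻¹ U`,
`P = d ∘ ι`; `P 0 = 0`.  If `P (x, y) = 0` and `P (x, t) = 0` for all `t` near `y`, then `t ↦ f (ι (x, t))`
has derivative `0` near `y`, so it is constant on a small disc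
(`IsOpen.is_const_of_deriv_eq_zero`, or the mean value inequality), which contradicts the injectivity.
So `S_ZC` applies: with `c x = ι (x, Y x)` the function `f ∘ c` has derivative
`fderiv ℂ f (c x) (c' x) = 0` near `x₀`, so it is constant near `x₀`, but `c` and `f` are injective. -/
def S_Osg : Prop := ∀ n : ℕ, OS n

/-- **Inv** (80 lines; uses `S_Osg`).  The inverse map.

PROOF.  At `z ∈ U` `f` is analytic, so it has a strict derivative, which is injective by `S_Osg`, so it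
is a `ContinuousLinearEquiv` (finite dimension).  `HasStrictFDerivAt.map_nhds_eq_of_equiv`: `f` maps
neighbourhoods to neighbourhoods, so images of open sets are open.  `g = Function.invFunOn f U`; near
`f z` it is equal to the local inverse (`HasStrictFDerivAt.localInverse`,
`eventually_right_inverse`, continuity at `f z`, so its values are in `U`; injectivity), which is
differentiable at `f z` (`HasStrictFDerivAt.to_localInverse`). -/
def S_Inv : Prop :=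
  ∀ (n : ℕ) (f : Cn n → Cn n) (U : Set (Cn n)), IsOpen U → DifferentiableOn ℂ f U → InjOn f U →
    (∀ W ⊆ U, IsOpen W → IsOpen (f '' W)) ∧
    ∃ g : Cn n → Cn n, DifferentiableOn ℂ g (f '' U) ∧ ∀ z ∈ U, g (f z) = z

/-! ## Part M: Loewner chains -/

/-- **Pick** (80 lines).  A consequence of the lemma of Schwarz and Pick.

PROOF.  `c = e^(-τ)`.  `τ = 0`: `‖G‖ ≤ 1 = ‖G 0‖`, so `G` is constant on the disc (maximum principle,
`Complex.eqOn_of_isPreconnected_of_isMaxOn_norm`) and the left side is `0`.  `τ > 0`: `0 < c < 1`;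
`T w = (w - c)/(1 - c w)` maps the closed unit disc into itself (`‖w - c‖² ≤ ‖1 - c w‖²` iff
`(1 - c²)(1 - ‖w‖²) ≥ 0`).  `T ∘ G` is differentiable on `ball 0 1`, vanishes at `0` and maps into
`ball 0 (1 + η)` for every `η > 0`; the lemma of Schwarz (`Complex.dist_le_div_mul_dist_of_mapsTo_ball`)
and `η → 0` give `‖T (G x)‖ ≤ ‖x‖`.  So `‖G x - c‖ ≤ ‖x‖ ‖1 - c G x‖ ≤ ‖x‖ ((1 - c²) + c ‖G x - c‖)`,
`‖G x - c‖ ≤ ‖x‖ (1 - c²)/(1 - ‖x‖) ≤ (1 - c) 2 ‖x‖/(1 - ‖x‖)` and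
`1 - Re G x ≤ (1 - c) + ‖G x - c‖ ≤ (1 - c)(1 + ‖x‖)/(1 - ‖x‖)`, `1 - c ≤ τ`. -/
def S_Pick : Prop :=
  ∀ (G : ℂ → ℂ) (τ : ℝ), 0 ≤ τ → DifferentiableOn ℂ G (ball 0 1) → (∀ x ∈ ball (0 : ℂ) 1, ‖G x‖ ≤ 1) →
    G 0 = Complex.ofReal (Real.exp (-τ)) → ∀ x ∈ ball (0 : ℂ) 1,
    1 - (G x).re ≤ τ * ((1 + ‖x‖) / (1 - ‖x‖))

/-- **Near** (80 lines; uses `S_Pick`).  Self-maps of the ball with derivative `e^(-τ) I` at `0`.

PROOF.  `z = 0` is trivial.  `z ≠ 0`: `v = ‖z‖⁻¹ • z`, `φ x = h (x • v)`, `k = dslope φ 0`.  By the lemma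
of Schwarz (`Complex.norm_dslope_le_div_of_mapsTo_ball`) `‖k x‖ ≤ 1` for `‖x‖ < 1`; `k` is
differentiable on the disc (`DifferentiableOn.dslope`-type lemma, `Complex.differentiableOn_dslope`).
`h z = ‖z‖ • k ‖z‖`, so `‖h z‖ ≤ ‖z‖`.  `G x = ⟪v, k x⟫` (linear in the second variable),
`G 0 = ⟪v, φ'(0)⟫ = ⟪v, e^(-τ) v⟫ = e^(-τ)`, `‖G x‖ ≤ 1`.  `‖k x - v‖² = ‖k x‖² - 2 Re G x + 1 ≤
2 (1 - Re G x)`; `S_Pick`; `‖h z - z‖ = ‖z‖ ‖k ‖z‖ - v‖ ≤ ‖k ‖z‖ - v‖`. -/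
def S_Near : Prop :=
  ∀ (n : ℕ) (h : Cn n → Cn n) (τ : ℝ), 0 ≤ τ → DifferentiableOn ℂ h (ball 0 1) →
    MapsTo h (ball 0 1) (ball 0 1) → h 0 = 0 →
    fderiv ℂ h 0 = (Complex.ofReal (Real.exp (-τ))) • ContinuousLinearMap.id ℂ (Cn n) →
    ∀ z ∈ ball (0 : Cn n) 1, ‖h z‖ ≤ ‖z‖ ∧ ‖h z - z‖ ^ 2 ≤ 2 * τ * ((1 + ‖z‖) / (1 - ‖z‖))

/-- **Sur** (60 lines; uses `S_Near`).  Such maps with small `τ` are onto a given smaller ball.

PROOF.  `ρ₁ = (1 + ρ₀)/2`, `δ > 0` with `2 δ (1 + ρ₁)/(1 - ρ₁) ≤ ((1 - ρ₀)/4)²`.  For `‖z‖ = ρ₁`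
`‖h z‖ ≥ ρ₁ - (1 - ρ₀)/4 > ρ₀`.  The closed ball `closedBall 0 ρ₀` is (pre)connected (convex) and
contained in the union of the open sets `h '' ball 0 ρ₁` and `(h '' closedBall 0 ρ₁)ᶜ` (the image of the
closed ball is compact), which are disjoint; `0 = h 0` is in the first one.
(`IsPreconnected.subset_left_of_subset_union`.) -/
def S_Sur : Prop :=
  ∀ ρ₀ : ℝ, 0 ≤ ρ₀ → ρ₀ < 1 → ∃ δ : ℝ, 0 < δ ∧ ∀ (n : ℕ) (h : Cn n → Cn n) (τ : ℝ), 0 ≤ τ → τ ≤ δ →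
    DifferentiableOn ℂ h (ball 0 1) → MapsTo h (ball 0 1) (ball 0 1) → h 0 = 0 →
    fderiv ℂ h 0 = (Complex.ofReal (Real.exp (-τ))) • ContinuousLinearMap.id ℂ (Cn n) →
    (∀ W ⊆ ball (0 : Cn n) 1, IsOpen W → IsOpen (h '' W)) → closedBall 0 ρ₀ ⊆ h '' ball 0 1

/-- **Tr** (80 lines; uses `S_Inv`).  The transition maps of a chain.

PROOF.  `g` = inverse of `L t` (`S_Inv`), `h = g ∘ L s`.  `L s (𝔹) ⊆ L t (𝔹)` gives `L t (h z) = L s z`,
`h z ∈ 𝔹`; differentiable as a composition; `h 0 = g (L s 0) = g 0 = g (L t 0) = 0`.  Derivative at `0`: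
`L t ∘ h = L s` near `0`, chain rule: `e^t Dh(0) = e^s I`.  For `W ⊆ 𝔹` open
`h '' W = 𝔹 ∩ (L t)⁻¹ (L s '' W)` (injectivity of `L t`), `L s '' W` is open (`S_Inv`), `L t` is
continuous on the open set `𝔹` (`ContinuousOn.isOpen_inter_preimage`). -/
def S_Tr : Prop :=
  ∀ (n : ℕ) (L : ℝ → Cn n → Cn n), Chain n L → ∀ s t : ℝ, 0 ≤ s → s ≤ t → ∃ h : Cn n → Cn n,
    DifferentiableOn ℂ h (ball 0 1) ∧ MapsTo h (ball 0 1) (ball 0 1) ∧ h 0 = 0 ∧
    fderiv ℂ h 0 = (Complex.ofReal (Real.exp (-(t - s)))) • ContinuousLinearMap.id ℂ (Cn n) ∧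
    (∀ W ⊆ ball (0 : Cn n) 1, IsOpen W → IsOpen (h '' W)) ∧ ∀ z ∈ ball (0 : Cn n) 1, L t (h z) = L s z

/-- **Desc** (120 lines; uses `S_Inv`, `S_Near`, `S_Sur`, `S_Tr`).  Descent along a chain.

PROOF.  `δ` from `S_Sur` for `ρ₀`.  Claim: if `0 ≤ s ≤ t ≤ s + δ` and the disc is in `L t (𝔹)` then it is
in `L s (𝔹)`.  `g` = inverse of `L t`, `ψ x = g (x • e)`: differentiable on the open set
`{x | x • e ∈ L t '' 𝔹} ⊇ closedBall 0 R` (`L t '' 𝔹` is open, `S_Inv`).  For `‖x‖ = R`: `x • e = L 0 z`,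
`‖z‖ ≤ ρ₀`, and with the transition map `h₀` from `0` to `t`: `x • e = L t (h₀ z)`, `ψ x = h₀ z`,
`‖ψ x‖ ≤ ‖z‖ ≤ ρ₀` (`S_Near`).  Maximum principle (`Complex.norm_le_of_forall_mem_frontier_norm_le` on
`ball 0 R`): `‖ψ x‖ ≤ ρ₀` for `‖x‖ ≤ R`.  `S_Sur` for the transition map `h` from `s` to `t`:
`ψ x = h w`, `w ∈ 𝔹`, and `x • e = L t (ψ x) = L t (h w) = L s w`.  By induction on `j` the claim of
`S_Desc` holds for all `T ≤ j δ` (step from `T` to `max 0 (T - δ)`). -/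
def S_Desc : Prop :=
  ∀ (n : ℕ) (L : ℝ → Cn n → Cn n), Chain n L → ∀ (ρ₀ R : ℝ) (e : Cn n), 0 ≤ ρ₀ → ρ₀ < 1 → 0 < R →
    (∀ x : ℂ, ‖x‖ = R → ∃ z : Cn n, ‖z‖ ≤ ρ₀ ∧ L 0 z = x • e) → ∀ T : ℝ, 0 ≤ T →
    (∀ x : ℂ, ‖x‖ ≤ R → x • e ∈ L T '' ball 0 1) → ∀ x : ℂ, ‖x‖ ≤ R → x • e ∈ L 0 '' ball 0 1

/-- **NR** (120 lines; uses `S_Inv`).  Runge images of the ball contain the discs whose boundary circles
they contain.

PROOF.  `Ω = f '' 𝔹` is open, `g` its inverse.  `K j = f '' closedBall 0 (1 - 1/(j+2))`: compact subsets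
of `Ω`; every point of `Ω` is in `K j` for large `j`.  `Runge` for the coordinates of `g` gives
polynomial maps `Q j : Cn n → Cn n` (entire) with `‖g z - Q j z‖ ≤ c_j → 0` on `K j` (norm at most the
sum of the `n` coordinate errors `1/(j+1)`).  The circle `C = {x • e | ‖x‖ = R}` is compact, so
`‖g‖ ≤ ρ < 1` on `C` (`g (C) ⊆ 𝔹`), and `C ⊆ K j` for large `j`.  `q j x = Q j (x • e)` is entire, and
by the maximum principle on `closedBall 0 R` `‖q i x - q j x‖ ≤ c_i + c_j`, `‖q j x‖ ≤ ρ + c_j` there.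
So `q j` converges uniformly on `closedBall 0 R` to a continuous `G`, `‖G x‖ ≤ ρ`, and `G x = g (x • e)`
if `x • e ∈ Ω`.  Let `D = {x ∈ closedBall 0 R | x • e ∈ Ω}`: it is open in the closed disc, not empty,
and closed: it is equal to `{x ∈ closedBall 0 R | f (G x) = x • e}` (`f` is continuous on `𝔹`).  The closed
disc is connected, so `D` is everything. -/
def S_NR : Prop :=
  ∀ (n : ℕ) (f : Cn n → Cn n), DifferentiableOn ℂ f (ball 0 1) → InjOn f (ball 0 1) →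
    ∀ (R : ℝ) (e : Cn n), 0 < R → (∀ x : ℂ, ‖x‖ = R → x • e ∈ f '' ball 0 1) →
    Runge n (f '' ball 0 1) → ∀ x : ℂ, ‖x‖ ≤ R → x • e ∈ f '' ball 0 1

/-- **Ax** (80 lines).  Maps commuting with the circle group are linear on the first axis.

PROOF.  `rot k u (x • e1) = (u x) • e1` (`‖·‖` is preserved).  For `‖x‖ < 1` and a coordinate `i` let
`φ w = f ((w x) • e1) i`, differentiable near the closed unit disc.  For `‖w‖ = 1`: `φ w = w φ 1` if
`i = 0`, `w φ w = φ 1` if `i = 1` (as `φ w = w⁻¹ φ 1`), `φ w = φ 1` for the others.  By the maximum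
principle the same identities hold for all `‖w‖ ≤ 1` (the differences vanish on the unit circle:
`Complex.eqOn_closedBall_of_eqOn_frontier`-type, or `Complex.norm_le_of_forall_mem_frontier_norm_le` with
bound `0`).  `i = 0`: derivative at `w = 0`: `φ 1 = φ'(0) = (fderiv ℂ f 0 (x • e1)) 0 = c x`.  `i = 1`:
`w = 0` gives `φ 1 = 0`.  Others: `φ 1 = φ 0 = f 0 i = 0`. -/
def S_Ax : Prop :=
  ∀ (k : ℕ) (f : Cn (k + 2) → Cn (k + 2)) (c : ℂ), DifferentiableOn ℂ f (ball 0 1) → f 0 = 0 →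
    fderiv ℂ f 0 = c • ContinuousLinearMap.id ℂ (Cn (k + 2)) → Eqv k 1 f →
    ∀ x : ℂ, ‖x‖ < 1 → f (x • e1 k) = (c * x) • e1 k

/-! ## Part F: the example -/

/-- **Gam** (100 lines).  Properties of `a` and `b`.

PROOF.  `Complex.differentiable_one_div_Gamma`; `Complex.Gamma_one`.  Zeros: `Complex.Gamma_eq_zero_iff`
(`Γ s = 0` in Mathlib iff `s = -j`, `j : ℕ`): `1 + m = -j` gives `m = -(j+1)`; `1 - m = -j` gives
`m = j + 1`; the converse for `bv` at `1`.  `av A 1 = e^A/Γ(2) = e^A`.  (R1), (R2): induction on `j` with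
`Complex.one_div_Gamma_eq_self_mul_one_div_Gamma_add_one` (`(Γ s)⁻¹ = s (Γ (s+1))⁻¹`):
`(Γ(1+m))⁻¹ = ∏_{i<j} (m+1+i) (Γ(1+m+j))⁻¹` and `(Γ(1-m-j))⁻¹ = ∏_{i<j} (-(m+i)) (Γ(1-m))⁻¹`; in (R2)
the signs cancel: `exp(πi(m+j)) = (-1)^j exp(πim)`. -/
def S_Gam : Prop :=
  ∀ A : ℂ, Differentiable ℂ (av A) ∧ Differentiable ℂ (bv A) ∧ av A 0 = 1 ∧ bv A 0 = 1 ∧
    av A 1 = Complex.exp A ∧ bv A 1 = 0 ∧
    (∀ m, av A m = 0 → ∃ j : ℕ, 1 ≤ j ∧ m = -(j : ℂ)) ∧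
    (∀ m, bv A m = 0 → ∃ j : ℕ, 1 ≤ j ∧ m = (j : ℂ)) ∧
    (∀ (m : ℂ) (j : ℕ), av A m * Complex.exp (A * j) =
      (∏ i ∈ Finset.range j, (m + 1 + i)) * av A (m + j)) ∧
    ∀ (m : ℂ) (j : ℕ), bv A (m + j) * Complex.exp (A * j) =
      (∏ i ∈ Finset.range j, (m + i)) * bv A m

/-- **Mul** (50 lines).  The product of the first two components.

PROOF.  `exp(Am) exp(-Am + πim) = exp(πim)`; `m (Γ(1+m))⁻¹ = (Γ m)⁻¹`
(`Complex.one_div_Gamma_eq_self_mul_one_div_Gamma_add_one`), reflection formula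
(`Complex.Gamma_mul_Gamma_one_sub : Γ m Γ(1-m) = π / sin (π m)`, also valid at the integers with
Mathlib's conventions), `exp(πim) sin(πm) = (exp(2πim) - 1)/(2i)`. -/
def S_Mul : Prop :=
  ∀ A m : ℂ, m * (av A m * bv A m) =
    (Complex.exp (2 * Real.pi * Complex.I * m) - 1) / (2 * Real.pi * Complex.I)

/-- **Col** (80 lines; uses `S_Gam`).  Colliding fibres.

PROOF.  `m = 4xy`, `m' = 4x'y' = m + j`.  (R1), (R2) of `S_Gam`.
If `av A m' ≠ 0`: `x' e^(Aj) av A m' = x e^(Aj) av A m = x ∏_{i<j}(m+1+i) av A m'`, so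
`x' e^(Aj) = x ∏_{i<j} (m+1+i)`; the last factor (`i = j - 1`) is `m + j = 4x'y'`; if also `x' ≠ 0` cancel
`x'`: done.  If `bv A m ≠ 0`: `y e^(Aj) bv A m = y' e^(Aj) bv A m' = y' ∏_{i<j} (m+i) bv A m`, so
`y e^(Aj) = y' ∏_{i<j} (m+i)`, the first factor is `m = 4xy`, the others are the `m + 1 + i`, `i < j - 1`; if
also `y ≠ 0` cancel `y`: done.  Cases: `av A m' ≠ 0`, `x' ≠ 0`: done.  `av A m' ≠ 0`, `x' = 0`: `m' = 0`,
`m = -j`, so `bv A m ≠ 0` (its zeros are positive integers), `y ≠ 0` as `m ≠ 0`: done.  `av A m' = 0`: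
`m' = -l`, `l ≥ 1`, `m = -(l + j)`, so `bv A m ≠ 0`, `y ≠ 0`: done. -/
def S_Col : Prop :=
  ∀ (A x y x' y' : ℂ) (j : ℕ), 1 ≤ j → 4 * (x' * y') = 4 * (x * y) + j →
    x * av A (4 * (x * y)) = x' * av A (4 * (x' * y')) →
    y * bv A (4 * (x * y)) = y' * bv A (4 * (x' * y')) →
    Complex.exp (A * j) = 4 * (x * y') * ∏ i ∈ Finset.range (j - 1), (4 * (x * y) + 1 + i)

/-- **Inj** (120 lines; uses `S_Gam`, `S_Mul`, `S_Col`).  Injectivity on the ball of radius `r`.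

PROOF.  `F z = F z'`, `x = z 0`, `y = z 1`, `x' = z' 0`, `y' = z' 1`, `m = 4xy`, `m' = 4x'y'`.  The product
of the first two components: `xy av A m bv A m = x'y' av A m' bv A m'`, so by `S_Mul` (`4xy = m`)
`exp(2πim) = exp(2πim')`, `m' - m` is an integer (`Complex.exp_eq_exp_iff_exists_int`); by symmetry let
`m' = m + j`, `j : ℕ`.  `j ≥ 1`: `S_Col`, with `exp(A j) = (4r²)^j`.  `‖x‖, ‖y'‖ < r`;
`‖m‖ = 4‖x‖‖y‖ ≤ 2(‖x‖² + ‖y‖²) ≤ 2‖z‖² < 2r²` (`EuclideanSpace.norm_sq_eq`, two different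
coordinates), the same for `m'`, so `‖m + 1 + i‖ < 2r²` for `i < j - 1` (a point of the segment from `m`
to `m'`; the ball is convex; or: the real part is between the real parts and the imaginary part is
the same).  So `(4r²)^j < 4r² (2r²)^(j-1) ≤ (4r²)^j`: contradiction (`r > 0`).  `j = 0`: `m = m'`.  If
`av A m ≠ 0` and `bv A m ≠ 0` then `x = x'`, `y = y'`.  If `av A m = 0` then `m = -l ≠ 0`, so
`bv A m ≠ 0`, `y = y'`, and `x = m/(4y) = x'`.  Similarly if `bv A m = 0`.  The other coordinates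
agree. -/
def S_Inj : Prop := ∀ (k : ℕ) (r : ℝ), 0 < r → InjOn (FF k (AA r)) (ball 0 r)

/-- **Hol** (90 lines; uses `S_Gam`).  `F` is entire, normalized, and commutes with the circle group.

PROOF.  Coordinatewise: `differentiable_euclidean` (or `hasFDerivAt_euclidean`-type lemmas for
`WithLp.toLp 2`); the coordinates are `z 0 * av A (4 (z 0 z 1))` etc.  At `0` the derivative of
`z ↦ z 0 * u z` with `u 0 = 1` is `dz_0` (product rule).  `rot k u` preserves `z 0 * z 1`. -/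
def S_Hol : Prop :=
  ∀ (k : ℕ) (A : ℂ), Differentiable ℂ (FF k A) ∧ FF k A 0 = 0 ∧
    fderiv ℂ (FF k A) 0 = ContinuousLinearMap.id ℂ (Cn (k + 2)) ∧
    ∀ u : ℂ, u ≠ 0 → ∀ z, FF k A (rot k u z) = rot k u (FF k A z)

/-- **Circ** (100 lines; uses `S_Gam`).  The circle and the hole.

PROOF.  `exp (AA r) = 4r²`.  (1) `u = x/(2r²)`, `‖u‖ = 1`, `z = (u/2, u⁻¹/2, 0, …)`: `‖z‖² = 1/2`,
`m = 4 (u/2)(u⁻¹/2) = 1`, `F z = ((u/2) 4r², 0, …) = x • e1`.  (2) `F z = e1`, `‖z‖ < 1`: `z 1 = 0` or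
`bv A m = 0`.  `z 1 = 0`: `m = 0`, `z 0 = 1`, contradiction.  `bv A m = 0`: `m = j`, `j ≥ 1`, and
`‖m‖ = 4 ‖z 0‖ ‖z 1‖ ≤ 2 ‖z‖² < 2`, so `m = 1`, `z 0 · 4r² = 1`, `1 = 4 z 0 z 1`, so `z 1 = r²`,
`‖z 1‖ ≥ 1`: contradiction. -/
def S_Circ : Prop :=
  ∀ (k : ℕ) (r : ℝ), 1 ≤ r →
    (∀ x : ℂ, ‖x‖ = 2 * r ^ 2 → ∃ z : Cn (k + 2), ‖z‖ ≤ Real.sqrt (1 / 2) ∧
      FF k (AA r) z = x • e1 k) ∧
    ∀ z ∈ ball (0 : Cn (k + 2)) 1, FF k (AA r) z ≠ e1 k

end Pool.Agent.Lib.MP_465591_an
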